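import Pool.Agent.Helper227.EN.Lang

/-!
Basic tools for formulas of arithmetic: formulas whose free variables are natural numbers (with the
variable `0` the innermost one), quantifiers, atomic formulas, transfer between structures.
-/

set_option autoImplicit false

open FirstOrder FirstOrder.Language
open Pool.Agent.Helper227.EN

universe u w

namespace Pool.Agent.TH752.RL

/-- `x` followed by the sequence `v` -/
def scons {N : Type u} (x : N) (v : ℕ → N) : ℕ → N
  | 0 => x
  | n + 1 => v n

@[simp] theorem scons_zero {N : Type u} (x : N) (v : ℕ → N) : scons x v 0 = x := rfl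
@[simp] theorem scons_succ {N : Type u} (x : N) (v : ℕ → N) (n : ℕ) : scons x v (n + 1) = v n := rfl
@[simp] theorem scons_one {N : Type u} (x : N) (v : ℕ → N) : scons x v 1 = v 0 := rfl

/-- formulas of arithmetic with variables indexed by natural numbers -/
abbrev Fm := LA.Formula ℕ

/-- the variable map used for the quantifiers -/
def exMap : ℕ → ℕ ⊕ Unit
  | 0 => Sum.inr ()
  | n + 1 => Sum.inl n

/-- existential quantification over the variable `0` -/
noncomputable def ex (φ : Fm) : Fm := Formula.iExs Unit (φ.relabel exMap)

/-- universal quantification over the variable `0` -/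
noncomputable def al (φ : Fm) : Fm := Formula.iAlls Unit (φ.relabel exMap)

theorem elim_exMap {N : Type u} (v : ℕ → N) (i : Unit → N) :
    (Sum.elim v i) ∘ exMap = scons (i ()) v := by
  funext n
  cases n <;> rfl

section
variable {N : Type u} [LA.Structure N]

@[simp] theorem realize_ex (φ : Fm) (v : ℕ → N) :
    (ex φ).Realize v ↔ ∃ x, φ.Realize (scons x v) := by
  unfold ex
  rw [Formula.realize_iExs]
  simp only [Formula.realize_relabel, elim_exMap]
  exact ⟨fun ⟨i, h⟩ => ⟨_, h⟩, fun ⟨x, h⟩ => ⟨fun _ => x, h⟩⟩

@[simp] theorem realize_al (φ : Fm) (v : ℕ → N) :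
    (al φ).Realize v ↔ ∀ x, φ.Realize (scons x v) := by
  unfold al
  rw [Formula.realize_iAlls]
  have : ∀ i : Unit → N, (fun a => Sum.elim v i a) = Sum.elim v i := fun i => rfl
  simp only [this, Formula.realize_relabel, elim_exMap]
  exact ⟨fun h x => h fun _ => x, fun h i => h _⟩

/-- the order relation of the structure -/
def slt (x y : N) : Prop := Structure.RelMap (L := LA) AR.lt ![x, y]

/-- addition of the structure -/
def sadd (x y : N) : N := Structure.funMap (L := LA) AF.add ![x, y]

/-- multiplication of the structure -/
def smul (x y : N) : N := Structure.funMap (L := LA) AF.mul ![x, y]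

/-- the element one of the structure -/
def sone : N := Structure.funMap (L := LA) AF.one ![]

/-- the element zero of the structure -/
def szero : N := Structure.funMap (L := LA) AF.zero ![]

/-- the formula `s < t` -/
def ltF (s t : LA.Term ℕ) : Fm := Relations.formula₂ (L := LA) AR.lt s t

@[simp] theorem realize_ltF (s t : LA.Term ℕ) (v : ℕ → N) :
    (ltF s t).Realize v ↔ slt (s.realize v) (t.realize v) :=
  Formula.realize_rel₂ (L := LA)

/-- the formula `s = t` -/
def eqF (s t : LA.Term ℕ) : Fm := Term.equal s t

@[simp] theorem realize_eqF (s t : LA.Term ℕ) (v : ℕ → N) :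
    (eqF s t).Realize v ↔ s.realize v = t.realize v := Formula.realize_equal

@[simp] theorem realize_tadd {α : Type w} (v : α → N) (s t : LA.Term α) :
    (Functions.apply₂ (L := LA) AF.add s t).realize v = sadd (s.realize v) (t.realize v) :=
  Term.realize_functions_apply₂ (L := LA) (f := AF.add)

@[simp] theorem realize_tmul {α : Type w} (v : α → N) (s t : LA.Term α) :
    (Functions.apply₂ (L := LA) AF.mul s t).realize v = smul (s.realize v) (t.realize v) :=
  Term.realize_functions_apply₂ (L := LA) (f := AF.mul)

@[simp] theorem realize_t1 {α : Type w} (v : α → N) :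
    (Constants.term (L := LA) AF.one : LA.Term α).realize v = sone := by
  have h : (default : Fin 0 → N) = ![] := Subsingleton.elim _ _
  unfold sone
  rw [← h]
  exact Term.realize_constants (L := LA) (c := AF.one)

@[simp] theorem realize_t0 {α : Type w} (v : α → N) :
    (Constants.term (L := LA) AF.zero : LA.Term α).realize v = szero := by
  have h : (default : Fin 0 → N) = ![] := Subsingleton.elim _ _
  unfold szero
  rw [← h]
  exact Term.realize_constants (L := LA) (c := AF.zero)

end

/-- the term `s + t` -/
abbrev ta {α : Type w} (s t : LA.Term α) : LA.Term α := Functions.apply₂ (L := LA) AF.add s t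
/-- the term `s * t` -/
abbrev tm {α : Type w} (s t : LA.Term α) : LA.Term α := Functions.apply₂ (L := LA) AF.mul s t
/-- the term `1` -/
abbrev to1 {α : Type w} : LA.Term α := Constants.term (L := LA) AF.one
/-- the term `0` -/
abbrev tz0 {α : Type w} : LA.Term α := Constants.term (L := LA) AF.zero
/-- the variable `i` -/
abbrev va (i : ℕ) : LA.Term ℕ := Term.var i

/-- Transfer: a formula which holds in `M` for all values of its variables holds in each structure
elementarily equivalent to `M`, for all values. -/
theorem transfer {M : Type u} {N : Type w} [LA.Structure M] [LA.Structure N] [Nonempty M]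
    (h : M ≅[LA] N) {α : Type*} (φ : LA.Formula α) (hφ : ∀ v : α → M, φ.Realize v) :
    ∀ v : α → N, φ.Realize v := by
  classical
  intro v
  by_contra hv
  have h1 : N ⊨ (Formula.not φ).exClosure := by
    rw [Formula.realize_exClosure]
    refine ⟨fun a => v a, ?_⟩
    have := (BoundedFormula.realize_restrictFreeVar (φ := Formula.not φ) (f := id)
      (v := fun a => v a) (v' := v) (xs := default) (by simp))
    have h2 : (Formula.not φ).Realize v := hv
    exact this.2 h2
  have h3 : M ⊨ (Formula.not φ).exClosure := (h.realize_sentence _).2 h1
  rw [Formula.realize_exClosure] at h3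
  obtain ⟨w, hw⟩ := h3
  let v0 : α → M := fun a => if ha : a ∈ (Formula.not φ).freeVarFinset then w ⟨a, ha⟩ else
    Classical.arbitrary M
  have := (BoundedFormula.realize_restrictFreeVar (φ := Formula.not φ) (f := id)
      (v := w) (v' := v0) (xs := default) (by
        intro a
        have ha := a.2
        simp only [id, v0]
        rw [dif_pos ha]))
  have h4 : (Formula.not φ).Realize v0 := this.1 hw
  exact h4 (hφ v0)

end Pool.Agent.TH752.RL
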