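import Mathlib

/-!
An index set of type omega one, and a pressing down argument.
-/

set_option autoImplicit false

open Cardinal

namespace Pool.Agent.TH752.RL

/-- the properties of the index set which are used -/
structure IsOm (Ω : Type) [LinearOrder Ω] : Prop where
  wf : WellFounded fun x y : Ω => x < y
  cnt : ∀ j : Ω, (Set.Iic j).Countable
  bdd : ∀ s : Set Ω, s.Countable → ∃ b, ∀ x ∈ s, x < b

/-- the first uncountable ordinal, as a type -/
abbrev Om : Type := (aleph 1 : Cardinal.{0}).ord.ToType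

theorem om_cnt (j : Om) : (Set.Iic j).Countable := by
  have h1 : #(Set.Iio j) < aleph 1 := Cardinal.mk_Iio_toType_ord_lt j
  have h2 : #(Set.Iio j) ≤ aleph0 := by
    refine Order.lt_succ_iff.1 (lt_of_lt_of_eq h1 ?_)
    rw [← Cardinal.succ_aleph0]
  have h4 : (Set.Iio j).Countable := Cardinal.le_aleph0_iff_set_countable.1 h2
  have h5 : Set.Iic j = insert j (Set.Iio j) := by
    ext x
    simp [le_iff_lt_or_eq, or_comm]
  rw [h5]
  exact h4.insert j

theorem om_isOm : IsOm Om where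
  wf := wellFounded_lt
  cnt := om_cnt
  bdd := by
    intro s hs
    by_contra hcon
    push Not at hcon
    have h1 : (Set.univ : Set Om) ⊆ ⋃ x ∈ s, Set.Iic x := by
      intro b _
      obtain ⟨x, hx, hbx⟩ := hcon b
      exact Set.mem_biUnion hx hbx
    have h2 : (Set.univ : Set Om).Countable :=
      Set.Countable.mono h1 (hs.biUnion fun x _ => om_cnt x)
    have h3 : #Om ≤ aleph0 := by
      rw [← Cardinal.mk_univ]
      exact Cardinal.le_aleph0_iff_set_countable.2 h2
    rw [Cardinal.mk_ord_toType] at h3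
    exact absurd h3 (not_le.2 Cardinal.aleph0_lt_aleph_one)

/-- pressing down -/
theorem press {Ω : Type} [LinearOrder Ω] (hΩ : IsOm Ω) (D : Ω → Type) (hD : ∀ j, Countable (D j))
    (Q : Ω → (j : Ω) → D j → Prop)
    (h : ∀ i j0 : Ω, j0 < i → ∃ (j : Ω) (_ : j < i) (δ : D j), Q i j δ) :
    ∃ (j : Ω) (δ : D j), ∀ b, ∃ i, b < i ∧ Q i j δ := by
  classical
  by_contra hcon
  push Not at hcon
  choose b hb using hcon
  have hg : ∀ k : Ω, ∃ g, k < g ∧ ∀ j, j ≤ k → ∀ δ : D j, b j δ < g := by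
    intro k
    have hc : (insert k (⋃ j ∈ Set.Iic k, Set.range fun δ : D j => b j δ)).Countable := by
      refine Set.Countable.insert k ((hΩ.cnt k).biUnion fun j _ => ?_)
      have := hD j
      exact Set.countable_range _
    obtain ⟨g, hg⟩ := hΩ.bdd _ hc
    exact ⟨g, hg k (Set.mem_insert _ _), fun j hj δ => hg _ (Set.mem_insert_of_mem _
      (Set.mem_biUnion (show j ∈ Set.Iic k from hj) ⟨δ, rfl⟩))⟩
  choose g hg1 hg2 using hg
  obtain ⟨i0, -⟩ := hΩ.bdd ∅ Set.countable_empty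
  let a : ℕ → Ω := fun n => g^[n] i0
  have ha : ∀ n, a (n + 1) = g (a n) := fun n => Function.iterate_succ_apply' g n i0
  obtain ⟨c, hc⟩ := hΩ.bdd (Set.range a) (Set.countable_range a)
  obtain ⟨i, hi, hmin⟩ := hΩ.wf.has_min {c | ∀ n, a n < c} ⟨c, fun n => hc _ ⟨n, rfl⟩⟩
  obtain ⟨j, hj, δ, hQ⟩ := h i (a 0) (hi 0)
  have h1 : ¬ ∀ n, a n < j := fun h2 => hmin j h2 hj
  push Not at h1
  obtain ⟨n, hn⟩ := h1
  refine hb j δ i ?_ hQ
  have h2 := hg2 (a n) j hn δ
  rw [← ha] at h2
  exact h2.trans (hi (n + 1))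

end Pool.Agent.TH752.RL
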