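import Pool.Agent.TH752.RL.Model
import Pool.Agent.TH752.RL.Press

/-!
A model all of whose elementary end extensions are conservative.
-/

set_option autoImplicit false

open FirstOrder FirstOrder.Language
open Pool.Agent.Helper227.EN

universe u w

namespace Pool.Agent.TH752.RL

attribute [local instance] stdStr

section cd
variable {K : Type u} [LA.Structure K] {α : Type} [Finite α]

/-- for all values of the parameters, the set defined by `φ` below `v 1` has a code below `v 0` -/
noncomputable def cdF (φ : LA.Formula (α ⊕ Unit)) : LA.Formula ℕ :=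
  Formula.iAlls α (Formula.iExs Unit
    ((Relations.formula₂ (L := LA) AR.lt (Term.var (Sum.inr ())) (Term.var (Sum.inl (Sum.inl 0)))) ⊓
      Formula.iAlls Unit
        ((Relations.formula₂ (L := LA) AR.lt (Term.var (Sum.inr ()))
          (Term.var (Sum.inl (Sum.inl (Sum.inl 1))))) ⟹
          (Formula.iff (epsF.relabel fun n => match n with
            | 0 => (Sum.inr () : ((ℕ ⊕ α) ⊕ Unit) ⊕ Unit)
            | _ + 1 => Sum.inl (Sum.inr ()))
            (φ.relabel (Sum.elim (fun a => Sum.inl (Sum.inl (Sum.inr a))) fun _ => Sum.inr ()))))))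

theorem realize_cdF (φ : LA.Formula (α ⊕ Unit)) (v : ℕ → K) :
    (cdF φ).Realize v ↔ ∀ z : α → K, ∃ s, slt s (v 0) ∧ ∀ w, slt w (v 1) → (eps w s ↔ PR φ z w) := by
  have e5 : ∀ {β : Type} (i j : β) (w : β → K), (Relations.formula₂ (L := LA) AR.lt
      (Term.var i) (Term.var j)).Realize w ↔ slt (w i) (w j) := by
    intro β i j w
    exact Formula.realize_rel₂ (L := LA)
  have e1 : ∀ (z : α → K) (i j : Unit → K),
      (Sum.elim (Sum.elim (Sum.elim v z) i) j) ∘
      (Sum.elim (fun a => Sum.inl (Sum.inl (Sum.inr a))) fun _ => Sum.inr () :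
        α ⊕ Unit → ((ℕ ⊕ α) ⊕ Unit) ⊕ Unit) = Sum.elim z j := by
    intro z i j
    funext y
    rcases y with y | y <;> rfl
  unfold cdF
  rw [Formula.realize_iAlls]
  refine forall_congr' fun z => ?_
  have e2 : (fun a => Sum.elim v z a) = Sum.elim v z := rfl
  rw [e2, Formula.realize_iExs, ex_unit]
  refine exists_congr fun s => ?_
  rw [Formula.realize_inf, Formula.realize_iAlls, e5, all_unit]
  refine and_congr Iff.rfl (forall_congr' fun w => ?_)
  have e3 : (fun a => Sum.elim (Sum.elim (Sum.elim v z) fun _ : Unit => s) (fun _ : Unit => w) a) =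
    Sum.elim (Sum.elim (Sum.elim v z) fun _ : Unit => s) (fun _ : Unit => w) := rfl
  rw [e3, Formula.realize_imp, e5, Formula.realize_iff, Formula.realize_relabel,
    Formula.realize_relabel, realize_epsF, e1]
  rfl

end cd

theorem nat_cd {α : Type} (φ : LA.Formula (α ⊕ Unit)) (m : ℕ) : ∃ B : ℕ, ∀ z : α → ℕ,
    ∃ s, s < B ∧ ∀ w, w < m → (eps w s ↔ PR φ z w) := by
  classical
  have hch : ∀ D : Finset ℕ, ∃ s : ℕ, ∀ i < m, (eps i s ↔ i ∈ D) := fun D =>
    exists_nat_code m fun i => i ∈ D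
  choose s hs using hch
  refine ⟨(Finset.range m).powerset.sup s + 1, fun z => ?_⟩
  refine ⟨s ((Finset.range m).filter fun w => PR φ z w), ?_, fun w hw => ?_⟩
  · refine Nat.lt_succ_of_le (Finset.le_sup (f := s) ?_)
    rw [Finset.mem_powerset]
    exact Finset.filter_subset _ _
  · rw [hs _ w hw, Finset.mem_filter, Finset.mem_range]
    exact ⟨fun h => h.2, fun h => ⟨hw, h⟩⟩

/-- bounded codes exist in all the structures elementarily equivalent to `ℕ` -/
theorem exists_cd {K : Type u} [LA.Structure K] (h : ℕ ≅[LA] K) {α : Type} [Finite α]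
    (φ : LA.Formula (α ⊕ Unit)) (m : K) : ∃ B : K, (cdF φ).Realize (scons B fun _ => m) := by
  have h1 := transfer h (ex (cdF φ)) (fun v => by
    rw [realize_ex]
    obtain ⟨B, hB⟩ := nat_cd φ (v 0)
    refine ⟨B, ?_⟩
    rw [realize_cdF]
    exact hB) (fun _ => m)
  rw [realize_ex] at h1
  exact h1

section
variable {p : Filter ℕ} (hp : IsType p)

/-- the model -/
noncomputable def MM : LA.ElementarySubstructure (UM Om hp) :=
  hull (UM_equiv hp) (Set.range (cc hp))

theorem MM_equiv : ℕ ≅[LA] ↥(MM hp) := (UM_equiv hp).trans (MM hp).elementarilyEquivalent.symm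

theorem mem_MM (x : ↥(MM hp)) : Dc (Set.range (cc hp)) (x : UM Om hp) := (mem_hull _ _ _).1 x.2

theorem cc_mem (i : Om) : cc hp i ∈ MM hp := (mem_hull _ _ _).2 (dc_of_mem ⟨i, rfl⟩)

/-- the generators, in the model -/
noncomputable def cM (i : Om) : ↥(MM hp) := ⟨cc hp i, cc_mem hp i⟩

theorem Mi_mono {i i' : Om} (h : i ≤ i') {x : UM Om hp} (hx : Mi hp i x) : Mi hp i' x :=
  Dc.mono hx (Set.image_mono fun _ hj => lt_of_lt_of_le hj h)

theorem exists_Mi {x : UM Om hp} (hx : Dc (Set.range (cc hp)) x) : ∃ i, Mi hp i x := by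
  classical
  obtain ⟨A0, hA0, hA0'⟩ := hx.finite
  have hch : ∀ a : ↥A0, ∃ j, cc hp j = (a : UM Om hp) := fun a => hA0 a.2
  choose j hj using hch
  obtain ⟨b, hb⟩ := om_isOm.bdd (Set.range j) (Set.countable_range j)
  refine ⟨b, hA0'.mono ?_⟩
  intro a ha
  exact ⟨j ⟨a, ha⟩, hb _ ⟨_, rfl⟩, hj ⟨a, ha⟩⟩

/-- every elementary end extension of the model is conservative -/
theorem conservative {N : Type u} [LA.Structure N] (f : ↥(MM hp) ↪ₑ[LA] N)
    (hend : ∀ x : ↥(MM hp), ∀ y : N, y ∉ Set.range f → slt (f x) y)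
    (S : N → Prop) (hS : Dfn Set.univ fun v => S (v 0)) :
    ∃ S' : N → Prop, Dfn (Set.range f) (fun v => S' (v 0)) ∧ ∀ x, (S (f x) ↔ S' (f x)) := by
  classical
  have hN : ℕ ≅[LA] N := (MM_equiv hp).trans f.elementarilyEquivalent
  have hslt : ∀ x y, slt (f x) (f y) ↔ slt x y := by
    intro x y
    have h1 := f.map_formula (ltF (va 0) (va 1)) (scons x fun _ => y)
    rw [realize_ltF, realize_ltF] at h1
    exact h1
  have heps : ∀ x y, eps (f x) (f y) ↔ eps x y := by
    intro x y
    have h1 := f.map_formula epsF (scons x fun _ => y)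
    rw [realize_epsF, realize_epsF] at h1
    exact h1
  have heps' : ∀ x y : ↥(MM hp), eps (x : UM Om hp) y ↔ eps x y := by
    intro x y
    have h1 := (MM hp).subtype.map_formula epsF (scons x fun _ => y)
    rw [realize_epsF, realize_epsF] at h1
    exact h1
  -- coding
  have hcode : ∀ m : ↥(MM hp), ∃ s : ↥(MM hp), ∀ w, slt w m → (eps w s ↔ S (f w)) := by
    intro m
    obtain ⟨A0, -, hA0⟩ := hS.finite
    obtain ⟨φ, hφ⟩ := dfn_iff.1 hA0
    let e := A0.equivFin
    let g : ↥(A0 : Set N) ⊕ ℕ → Fin A0.card ⊕ Unit := Sum.map (fun a => e a) fun _ => ()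
    obtain ⟨B, hB⟩ := exists_cd (MM_equiv hp) (φ.relabel g) m
    have h1 := (f.map_formula (cdF (φ.relabel g)) (scons B fun _ => m)).2 hB
    rw [realize_cdF] at h1
    obtain ⟨s, hs1, hs2⟩ := h1 fun a => (e.symm a : N)
    have h2 : s ∈ Set.range f := by
      by_contra h3
      have h4 := hend B s h3
      exact slt_irrefl hN _ (slt_trans hN h4 hs1)
    obtain ⟨s, rfl⟩ := h2
    refine ⟨s, fun w hw => ?_⟩
    rw [← heps, hs2 (f w) ((hslt w m).2 hw), PR, Formula.realize_relabel, ← hφ fun _ => f w]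
    have : (Sum.elim (fun a => (e.symm a : N)) fun _ => f w) ∘ g =
        Sum.elim (fun a : ↥(A0 : Set N) => (a : N)) fun _ => f w := by
      funext z
      rcases z with z | z
      · show ((e.symm (e z) : A0) : N) = z
        rw [Equiv.symm_apply_apply]
      · rfl
    rw [this]
  -- pressing down
  obtain ⟨j, δ, hδ⟩ := press om_isOm (fun j => LA.Formula (↥(Set.Iic j) ⊕ Unit))
    (fun j => by
      have := (om_cnt j).to_subtype
      infer_instance)
    (fun i j δ => ∀ x : ↥(MM hp), Mi hp i x →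
      (S (f x) ↔ PR δ (fun k : ↥(Set.Iic j) => cM hp (k : Om)) x))
    (by
      intro i j0 hj0
      obtain ⟨s, hs⟩ := hcode (cM hp i)
      obtain ⟨j, hj, δ, hδ⟩ := code_trace hp (s : UM Om hp) (mem_MM hp s) i j0 hj0
      refine ⟨j, hj, δ, fun x hx => ?_⟩
      have h1 : slt x (cM hp i) := by
        have h2 := (MM hp).subtype.map_formula (ltF (va 0) (va 1)) (scons x fun _ => cM hp i)
        rw [realize_ltF, realize_ltF] at h2
        exact h2.1 (Mi_lt hp hx)
      rw [← hs x h1, ← heps', hδ x hx]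
      have h3 := (MM hp).subtype.map_formula δ
        (Sum.elim (fun k : ↥(Set.Iic j) => cM hp (k : Om)) fun _ => x)
      rw [PR, PR, ← h3]
      have : (⇑(MM hp).subtype ∘ Sum.elim (fun k : ↥(Set.Iic j) => cM hp (k : Om))
          fun _ : Unit => x) =
          Sum.elim (fun k : ↥(Set.Iic j) => cc hp (k : Om)) fun _ : Unit => (x : UM Om hp) := by
        funext z
        rcases z with z | z <;> rfl
      rw [this])
  refine ⟨fun y => PR δ (fun k : ↥(Set.Iic j) => f (cM hp (k : Om))) y, ?_, fun x => ?_⟩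
  · rw [dfn_iff]
    refine ⟨δ.relabel (Sum.map (fun k : ↥(Set.Iic j) => ⟨f (cM hp (k : Om)), ⟨_, rfl⟩⟩)
      fun _ : Unit => 0), fun v => ?_⟩
    rw [Formula.realize_relabel]
    show _ ↔ Formula.Realize δ _
    have : (Sum.elim Subtype.val v : ↥(Set.range f) ⊕ ℕ → N) ∘
        (Sum.map (fun k : ↥(Set.Iic j) => (⟨f (cM hp (k : Om)), ⟨_, rfl⟩⟩ : ↥(Set.range f)))
          fun _ : Unit => 0) =
        Sum.elim (fun k : ↥(Set.Iic j) => f (cM hp (k : Om))) fun _ : Unit => v 0 := by
      funext z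
      rcases z with z | z <;> rfl
    rw [this]
  · obtain ⟨b, hb⟩ := exists_Mi hp (mem_MM hp x)
    obtain ⟨i, hi, hQ⟩ := hδ b
    rw [hQ x (Mi_mono hp hi.le hb)]
    have h3 := f.map_formula δ
      (Sum.elim (fun k : ↥(Set.Iic j) => cM hp (k : Om)) fun _ => x)
    unfold PR
    rw [← h3]
    have : (⇑f ∘ Sum.elim (fun k : ↥(Set.Iic j) => cM hp (k : Om)) fun _ : Unit => x) =
        Sum.elim (fun k : ↥(Set.Iic j) => f (cM hp (k : Om))) fun _ : Unit => f x := by
      funext z
      rcases z with z | z <;> rfl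
    rw [this]

end

end Pool.Agent.TH752.RL
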