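import Pool.Agent.TH752.RL.Basic

/-!
Definable relations of a structure, given as predicates on sequences; the least number principle in
structures elementarily equivalent to `ℕ`; definable closure.
-/

set_option autoImplicit false

open FirstOrder FirstOrder.Language
open Pool.Agent.Helper227.EN

universe u w

namespace Pool.Agent.TH752.RL

attribute [local instance] stdStr

section gen
variable {L : FirstOrder.Language.{u, 0}} {N : Type w} [L.Structure N]

/-- existential quantification over the variable `0`, in any language -/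
noncomputable def exL (φ : L.Formula ℕ) : L.Formula ℕ := Formula.iExs Unit (φ.relabel exMap)

theorem realize_exL (φ : L.Formula ℕ) (v : ℕ → N) :
    (exL φ).Realize v ↔ ∃ x, φ.Realize (scons x v) := by
  unfold exL
  rw [Formula.realize_iExs]
  simp only [Formula.realize_relabel, elim_exMap]
  exact ⟨fun ⟨i, h⟩ => ⟨_, h⟩, fun ⟨x, h⟩ => ⟨fun _ => x, h⟩⟩

end gen

section
variable {N : Type u} [LA.Structure N]

/-- `R` is definable with parameters from `A` -/
def Dfn (A : Set N) (R : (ℕ → N) → Prop) : Prop := A.Definable LA {v : ℕ → N | R v}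

theorem Dfn.mono {A B : Set N} {R : (ℕ → N) → Prop} (h : Dfn A R) (hAB : A ⊆ B) : Dfn B R :=
  Set.Definable.mono h hAB

theorem Dfn.congr {A : Set N} {R R' : (ℕ → N) → Prop} (h : Dfn A R) (hR : ∀ v, R v ↔ R' v) :
    Dfn A R' := by
  have : R = R' := funext fun v => propext (hR v)
  rwa [this] at h

theorem Dfn.and {A : Set N} {R S : (ℕ → N) → Prop} (h : Dfn A R) (h' : Dfn A S) :
    Dfn A fun v => R v ∧ S v := Set.Definable.inter h h'

theorem Dfn.or {A : Set N} {R S : (ℕ → N) → Prop} (h : Dfn A R) (h' : Dfn A S) :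
    Dfn A fun v => R v ∨ S v := Set.Definable.union h h'

theorem Dfn.not {A : Set N} {R : (ℕ → N) → Prop} (h : Dfn A R) :
    Dfn A fun v => ¬ R v := Set.Definable.compl h

theorem Dfn.imp {A : Set N} {R S : (ℕ → N) → Prop} (h : Dfn A R) (h' : Dfn A S) :
    Dfn A fun v => R v → S v := by
  refine (h.not.or h').congr fun v => ?_
  tauto

theorem Dfn.iff {A : Set N} {R S : (ℕ → N) → Prop} (h : Dfn A R) (h' : Dfn A S) :
    Dfn A fun v => (R v ↔ S v) := by
  refine ((h.imp h').and (h'.imp h)).congr fun v => ?_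
  tauto

theorem Dfn.ex {A : Set N} {R : (ℕ → N) → Prop} (h : Dfn A R) :
    Dfn A fun v => ∃ x, R (scons x v) := by
  obtain ⟨φ, hφ⟩ := h
  refine ⟨exL φ, ?_⟩
  ext v
  have h1 : ∀ v, R v ↔ φ.Realize v := fun v => Set.ext_iff.1 hφ v
  show (∃ x, R (scons x v)) ↔ (exL φ).Realize v
  rw [realize_exL]
  simp only [h1]

theorem Dfn.all {A : Set N} {R : (ℕ → N) → Prop} (h : Dfn A R) :
    Dfn A fun v => ∀ x, R (scons x v) := by
  refine h.not.ex.not.congr fun v => ?_
  push Not
  rfl

theorem Dfn.ren {A : Set N} {R : (ℕ → N) → Prop} (h : Dfn A R) (g : ℕ → ℕ) :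
    Dfn A fun v => R (v ∘ g) := Set.Definable.preimage_comp g h

theorem Dfn.fm {A : Set N} (φ : Fm) : Dfn A fun v => φ.Realize v := by
  refine Set.Definable.mono (Set.empty_definable_iff.2 ⟨φ, rfl⟩) (Set.empty_subset A)

theorem Dfn.eq {A : Set N} (i j : ℕ) : Dfn A fun v => v i = v j :=
  (Dfn.fm (eqF (va i) (va j))).congr fun v => by simp

theorem Dfn.lt {A : Set N} (i j : ℕ) : Dfn A fun v => slt (v i) (v j) :=
  (Dfn.fm (ltF (va i) (va j))).congr fun v => by simp

theorem Dfn.const {A : Set N} {a : N} (ha : a ∈ A) (i : ℕ) : Dfn A fun v => v i = a := by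
  refine ⟨(Term.var i).equal (LA.con (⟨a, ha⟩ : A)).term, ?_⟩
  ext v
  simp

theorem Dfn.bool {A : Set N} (p : Prop) : Dfn A (fun _ : ℕ → N => p) := by
  by_cases hp : p
  · exact ((Dfn.eq 0 0).congr fun v => by simp [hp])
  · exact ((Dfn.eq 0 0).not.congr fun v => by simp [hp])

/-- definability in terms of formulas and parameters -/
theorem dfn_iff {A : Set N} {R : (ℕ → N) → Prop} :
    Dfn A R ↔ ∃ φ : LA.Formula (A ⊕ ℕ), ∀ v, φ.Realize (Sum.elim (↑) v) ↔ R v := by
  unfold Dfn
  rw [Set.definable_iff_exists_formula_sum]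
  constructor
  · rintro ⟨φ, hφ⟩
    exact ⟨φ, fun v => (Set.ext_iff.1 hφ v).symm⟩
  · rintro ⟨φ, hφ⟩
    exact ⟨φ, Set.ext fun v => (hφ v).symm⟩

/-- definable relations are defined over finite sets -/
theorem Dfn.finite {A : Set N} {R : (ℕ → N) → Prop} (h : Dfn A R) :
    ∃ A0 : Finset N, (A0 : Set N) ⊆ A ∧ Dfn (A0 : Set N) R :=
  Set.definable_iff_finitely_definable.1 h

theorem dfn_one {A : Set N} {S : Set N} : A.Definable₁ LA S ↔ Dfn A fun v => v 0 ∈ S := by
  constructor
  · intro h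
    exact Set.Definable.preimage_comp (fun _ : Fin 1 => (0 : ℕ)) h
  · intro h
    exact Set.Definable.preimage_comp (fun _ : ℕ => (0 : Fin 1)) h

/-- `x` is definable from parameters in `A` -/
def Dc (A : Set N) (x : N) : Prop := Dfn A fun v => v 0 = x

theorem Dc.mono {A B : Set N} {x : N} (h : Dc A x) (hAB : A ⊆ B) : Dc B x := Dfn.mono h hAB

theorem dc_of_mem {A : Set N} {x : N} (h : x ∈ A) : Dc A x := Dfn.const h 0

theorem Dc.finite {A : Set N} {x : N} (h : Dc A x) :
    ∃ A0 : Finset N, (A0 : Set N) ⊆ A ∧ Dc (A0 : Set N) x := Dfn.finite h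

/-- substitution of a definable element for a variable -/
theorem Dfn.subst {A : Set N} {R : (ℕ → N) → Prop} {x : N} (h : Dfn A R) (hx : Dc A x) :
    Dfn A fun v => R (scons x v) := by
  have h1 : Dfn A fun v => v 0 = x ∧ R v := Dfn.and hx h
  refine h1.ex.congr fun v => ?_
  constructor
  · rintro ⟨y, hy, h2⟩
    have : y = x := hy
    subst this
    exact h2
  · intro h2
    exact ⟨x, rfl, h2⟩

/-- a relation definable over `A ∪ {a}` comes from a relation definable over `A` -/
theorem Dfn.of_insert {A : Set N} {a : N} {R : (ℕ → N) → Prop} (h : Dfn (insert a A) R) :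
    ∃ T : (ℕ → N) → Prop, Dfn A T ∧ ∀ v, R v ↔ T (scons a v) := by
  classical
  obtain ⟨φ, hφ⟩ := dfn_iff.1 h
  let g : (↥(insert a A)) ⊕ ℕ → A ⊕ ℕ := fun z => match z with
    | Sum.inl b => if hb : (b : N) ∈ A then Sum.inl ⟨b, hb⟩ else Sum.inr 0
    | Sum.inr n => Sum.inr (n + 1)
  refine ⟨fun v => (φ.relabel g).Realize (Sum.elim (↑) v), dfn_iff.2 ⟨φ.relabel g, fun v => Iff.rfl⟩,
    fun v => ?_⟩
  show R v ↔ (φ.relabel g).Realize (Sum.elim (↑) (scons a v))
  rw [Formula.realize_relabel, ← hφ v]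
  have : (Sum.elim (↑) v : (↥(insert a A)) ⊕ ℕ → N) = (Sum.elim (↑) (scons a v)) ∘ g := by
    funext z
    rcases z with b | n
    · simp only [Sum.elim_inl, Function.comp_apply, g]
      split_ifs with hb
      · rfl
      · rcases b.2 with h1 | h1
        · simpa using h1
        · exact absurd h1 hb
    · rfl
  rw [this]

/-- transitivity of definability -/
theorem Dfn.trans {A B : Set N} {R : (ℕ → N) → Prop} (h : Dfn B R) (hB : ∀ b ∈ B, Dc A b) :
    Dfn A R := by
  classical
  obtain ⟨B0, hB0, h1⟩ := h.finite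
  have key : ∀ (F : Finset N), (∀ b ∈ F, Dc A b) → ∀ R : (ℕ → N) → Prop, Dfn (A ∪ F) R → Dfn A R := by
    intro F
    induction F using Finset.induction_on with
    | empty =>
      intro _ R hR
      simpa using hR
    | insert a F ha ih =>
      intro hF R hR
      rw [Finset.coe_insert, Set.union_insert] at hR
      obtain ⟨T, hT, hRT⟩ := hR.of_insert
      have hT' := ih (fun b hb => hF b (Finset.mem_insert_of_mem hb)) T hT
      exact (hT'.subst (hF a (Finset.mem_insert_self a F))).congr fun v => (hRT v).symm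
  exact key B0 (fun b hb => hB b (hB0 hb)) R (h1.mono Set.subset_union_right)

theorem Dc.trans {A B : Set N} {x : N} (h : Dc B x) (hB : ∀ b ∈ B, Dc A b) : Dc A x :=
  Dfn.trans h hB

end

section order

variable {N : Type u} [LA.Structure N]

@[simp] theorem nat_slt (x y : ℕ) : slt x y ↔ x < y := Iff.rfl
@[simp] theorem nat_sadd (x y : ℕ) : sadd x y = x + y := rfl
@[simp] theorem nat_smul (x y : ℕ) : smul x y = x * y := rfl
@[simp] theorem nat_sone : (sone : ℕ) = 1 := rfl
@[simp] theorem nat_szero : (szero : ℕ) = 0 := rfl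

theorem slt_tri (h : ℕ ≅[LA] N) (x y : N) : slt x y ∨ x = y ∨ slt y x := by
  have := transfer h (ltF (va 0) (va 1) ⊔ (eqF (va 0) (va 1) ⊔ ltF (va 1) (va 0)))
    (by intro v; simp only [Formula.realize_sup, realize_ltF, realize_eqF, Term.realize_var,
          nat_slt]; exact lt_trichotomy _ _) (scons x (fun _ => y))
  simpa using this

theorem slt_irrefl (h : ℕ ≅[LA] N) (x : N) : ¬ slt x x := by
  have := transfer h (∼(ltF (va 0) (va 0)))
    (by intro v; simp) (fun _ => x)
  simpa using this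

theorem slt_trans (h : ℕ ≅[LA] N) {x y z : N} (hxy : slt x y) (hyz : slt y z) : slt x z := by
  have := transfer h (ltF (va 0) (va 1) ⟹ ltF (va 1) (va 2) ⟹ ltF (va 0) (va 2))
    (by intro v; simp only [Formula.realize_imp, realize_ltF, Term.realize_var, nat_slt]
        exact lt_trans) (scons x (scons y (fun _ => z)))
  have h2 : slt x y → slt y z → slt x z := by simpa using this
  exact h2 hxy hyz

/-- the formula of the least number principle for `φ` -/
noncomputable def lnpF {α : Type*} (φ : LA.Formula (α ⊕ Unit)) : LA.Formula α :=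
  (Formula.iExs Unit φ) ⟹
    Formula.iExs Unit (φ ⊓ Formula.iAlls Unit
      ((Relations.formula₂ (L := LA) AR.lt (Term.var (Sum.inr ())) (Term.var (Sum.inl (Sum.inr ()))))
        ⟹ ∼(φ.relabel (Sum.map Sum.inl id))))

theorem realize_lnpF {α : Type*} (φ : LA.Formula (α ⊕ Unit)) (v : α → N) :
    (lnpF φ).Realize v ↔
      ((∃ x, φ.Realize (Sum.elim v fun _ => x)) → ∃ x, φ.Realize (Sum.elim v fun _ => x) ∧
      ∀ y, slt y x → ¬ φ.Realize (Sum.elim v fun _ => y)) := by
  have e1 : ∀ (i j : Unit → N), (Sum.elim (Sum.elim v i) j) ∘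
      (Sum.map Sum.inl id : α ⊕ Unit → (α ⊕ Unit) ⊕ Unit) = Sum.elim v j := by
    intro i j
    funext z
    rcases z with z | z <;> rfl
  have e2 : ∀ (i j : Unit → N), (fun a => Sum.elim (Sum.elim v i) j a) = Sum.elim (Sum.elim v i) j :=
    fun i j => rfl
  have e3 : ∀ P : (Unit → N) → Prop, (∃ i, P i) ↔ ∃ x, P fun _ => x :=
    fun P => ⟨fun ⟨i, hi⟩ => ⟨i (), hi⟩, fun ⟨x, hx⟩ => ⟨_, hx⟩⟩
  have e4 : ∀ P : (Unit → N) → Prop, (∀ i, P i) ↔ ∀ x, P fun _ => x :=
    fun P => ⟨fun h x => h _, fun h i => h (i ())⟩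
  have e5 : ∀ (w : (α ⊕ Unit) ⊕ Unit → N), (Relations.formula₂ (L := LA) AR.lt
      (Term.var (Sum.inr ())) (Term.var (Sum.inl (Sum.inr ())))).Realize w ↔
      slt (w (Sum.inr ())) (w (Sum.inl (Sum.inr ()))) := fun w =>
    (Formula.realize_rel₂ (L := LA))
  simp only [lnpF, Formula.realize_imp, Formula.realize_iExs, Formula.realize_inf,
    Formula.realize_iAlls, Formula.realize_not, Formula.realize_relabel, e1, e2, e3, e4,
    e5, Sum.elim_inr, Sum.elim_inl]

/-- the least number principle -/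
theorem lnp {α : Type*} (h : ℕ ≅[LA] N) (φ : LA.Formula (α ⊕ Unit)) (v : α → N)
    (hx : ∃ x, φ.Realize (Sum.elim v fun _ => x)) :
    ∃ x, φ.Realize (Sum.elim v fun _ => x) ∧
      ∀ y, slt y x → ¬ φ.Realize (Sum.elim v fun _ => y) := by
  refine (realize_lnpF φ v).1 (transfer h (lnpF φ) (fun v => (realize_lnpF φ v).2 ?_) v) hx
  classical
  rintro ⟨x, hx⟩
  have hx' : ∃ x, φ.Realize (Sum.elim v fun _ => x) := ⟨x, hx⟩
  exact ⟨Nat.find hx', Nat.find_spec hx', fun y hy => Nat.find_min hx' hy⟩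

/-- the least number principle, for definable sets -/
theorem lnp_dfn {A : Set N} (h : ℕ ≅[LA] N) {S : N → Prop} (hS : Dfn A fun v => S (v 0))
    (hx : ∃ x, S x) : ∃ x, S x ∧ ∀ y, slt y x → ¬ S y := by
  obtain ⟨φ, hφ⟩ := dfn_iff.1 hS
  let g : A ⊕ ℕ → A ⊕ Unit := Sum.map id fun _ => ()
  have key : ∀ x, (φ.relabel g).Realize (Sum.elim (fun a : A => (a : N)) fun _ => x) ↔ S x := by
    intro x
    rw [Formula.realize_relabel, ← hφ fun _ => x]
    have : (Sum.elim (fun a : A => (a : N)) fun _ => x) ∘ g =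
        Sum.elim (fun a : A => (a : N)) (fun _ : ℕ => x) := by
      funext z
      rcases z with z | z <;> rfl
    rw [this]
  obtain ⟨x, hx⟩ := hx
  obtain ⟨y, hy, hy'⟩ := lnp h (φ.relabel g) (fun a : A => (a : N)) ⟨x, (key x).2 hx⟩
  exact ⟨y, (key y).1 hy, fun z hz hz' => hy' z hz ((key z).2 hz')⟩

/-- a nonempty definable set has an element definable from the same parameters -/
theorem exists_dc {A : Set N} (h : ℕ ≅[LA] N) {S : N → Prop} (hS : Dfn A fun v => S (v 0))
    (hx : ∃ x, S x) : ∃ x, S x ∧ Dc A x ∧ ∀ y, slt y x → ¬ S y := by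
  obtain ⟨x, hx, hx'⟩ := lnp_dfn h hS hx
  refine ⟨x, hx, ?_, hx'⟩
  have h1 : Dfn A fun v => S (v 0) ∧ ∀ y, (slt (scons y v 0) (scons y v 1) → ¬ S (scons y v 0)) :=
    hS.and (((Dfn.lt 0 1).imp hS.not).all)
  refine h1.congr fun v => ?_
  constructor
  · rintro ⟨h2, h3⟩
    rcases slt_tri h (v 0) x with h4 | h4 | h4
    · exact absurd h2 (hx' _ h4)
    · exact h4
    · exact absurd hx (h3 x h4)
  · intro h2
    rw [h2]
    exact ⟨hx, fun y hy => hx' y (by simpa [h2] using hy)⟩

/-- the definable closure of a set meets all the definable sets -/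
theorem dc_meets (h : ℕ ≅[LA] N) (A : Set N) : LA.MeetsDefinable {x : N | Dc A x} := by
  intro D hne hD
  have h1 := dfn_one.1 hD
  have h2 : Dfn A fun v => v 0 ∈ D := h1.trans fun b hb => hb
  obtain ⟨x, hx, hx', -⟩ := exists_dc h h2 hne
  exact ⟨x, hx, hx'⟩

/-- the elementary substructure generated by a set -/
noncomputable def hull (h : ℕ ≅[LA] N) (A : Set N) : LA.ElementarySubstructure N :=
  (dc_meets h A).toElementarySubstructure

theorem mem_hull (h : ℕ ≅[LA] N) (A : Set N) (x : N) : x ∈ hull h A ↔ Dc A x := by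
  have h1 : ((hull h A : LA.ElementarySubstructure N) : Set N) = {x : N | Dc A x} :=
    (dc_meets h A).closure_eq_self
  exact Set.ext_iff.1 h1 x

/-- an elementary substructure is closed under definability -/
theorem mem_of_dc {K : LA.ElementarySubstructure N} {x : N} (hx : Dc (K : Set N) x) : x ∈ K := by
  have h1 : (K : Set N).Definable₁ LA {x} := dfn_one.2 (hx.congr fun v => by simp)
  obtain ⟨y, hy, hy'⟩ := K.meetsDefinable {x} ⟨x, rfl⟩ h1
  have : y = x := hy
  rwa [← this]

theorem mem_of_dc' {K : LA.ElementarySubstructure N} {A : Set N} {x : N} (hx : Dc A x)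
    (hA : A ⊆ K) : x ∈ K := mem_of_dc (hx.mono hA)

end order

end Pool.Agent.TH752.RL
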