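import Pool.Agent.TH752.RL.Pent

/-!
Coding of finite sets: every finite set of natural numbers is coded.
-/

set_option autoImplicit false

open FirstOrder FirstOrder.Language
open Pool.Agent.Helper227.EN

universe u w

namespace Pool.Agent.TH752.RL

attribute [local instance] stdStr

section
variable {N : Type u} [LA.Structure N]

/-- `i` is an element of the set coded by `s` -/
def eps (i s : N) : Prop :=
  ∃ a b, s = pr a b ∧ ∃ q, a = smul q (sadd (smul (sadd i sone) b) sone)

/-- the formula `v 0 ∈ v 1` -/
noncomputable def epsF : Fm :=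
  ex (ex ((eqF (va 3) (prT (va 1) (va 0))) ⊓
    ex (eqF (va 2) (tm (va 0) (ta (tm (ta (va 3) to1) (va 1)) to1)))))

theorem realize_epsF (v : ℕ → N) : epsF.Realize v ↔ eps (v 0) (v 1) := by
  unfold epsF eps
  simp only [realize_ex, Formula.realize_inf, realize_eqF, realize_prT, realize_tadd, realize_tmul,
    realize_t1, Term.realize_var]
  rfl

theorem dfn_eps {A : Set N} (i j : ℕ) : Dfn A fun v => eps (v i) (v j) := by
  refine ((Dfn.fm (A := A) epsF).ren (fun n => match n with | 0 => i | _ + 1 => j)).congr fun v => ?_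
  rw [realize_epsF]
  rfl

end

theorem exists_nat_code (n : ℕ) (D : ℕ → Prop) : ∃ s : ℕ, ∀ i < n, (eps i s ↔ D i) := by
  classical
  let b := n.factorial
  let m : ℕ → ℕ := fun i => (i + 1) * b + 1
  have hcop : ∀ i < n, ∀ j < n, i ≠ j → Nat.Coprime (m i) (m j) := by
    have key : ∀ i < n, ∀ j < n, i < j → Nat.Coprime (m i) (m j) := by
      intro i hi j hj hij
      rw [Nat.coprime_iff_gcd_eq_one]
      by_contra hne
      obtain ⟨p, hp, hpd⟩ := Nat.exists_prime_and_dvd hne
      have h1 : p ∣ m i := hpd.trans (Nat.gcd_dvd_left _ _)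
      have h2 : p ∣ m j := hpd.trans (Nat.gcd_dvd_right _ _)
      have h3 : p ∣ (j - i) * b := by
        have : m j - m i = (j - i) * b := by
          simp only [m]
          rw [Nat.sub_mul]
          have : (i + 1) * b ≤ (j + 1) * b := Nat.mul_le_mul (by omega) le_rfl
          have e1 : (j + 1) * b = j * b + b := by ring
          have e2 : (i + 1) * b = i * b + b := by ring
          omega
        rw [← this]
        exact Nat.dvd_sub h2 h1
      have h4 : ¬ p ∣ b := by
        intro h4
        have h5 : p ∣ (i + 1) * b := h4.mul_left _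
        have h6 : p ∣ 1 := (Nat.dvd_add_right h5).1 h1
        exact hp.one_lt.ne' (Nat.dvd_one.1 h6)
      rcases (Nat.Prime.dvd_mul hp).1 h3 with h5 | h5
      · have h6 : p ≤ n := (Nat.le_of_dvd (by omega) h5).trans (by omega)
        exact h4 (Nat.dvd_factorial hp.pos h6)
      · exact h4 h5
    intro i hi j hj hij
    rcases lt_or_gt_of_ne hij with h | h
    · exact key i hi j hj h
    · exact (key j hj i hi h).symm
  let a := ∏ i ∈ (Finset.range n).filter D, m i
  refine ⟨pr a b, fun i hi => ?_⟩
  have hdvd : m i ∣ a ↔ D i := by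
    constructor
    · intro h
      by_contra hD
      have h1 : Nat.Coprime (m i) a := by
        refine Nat.Coprime.prod_right fun j hj => ?_
        rw [Finset.mem_filter, Finset.mem_range] at hj
        refine hcop i hi j hj.1 ?_
        rintro rfl
        exact hD hj.2
      have h2 : m i = 1 := Nat.Coprime.eq_one_of_dvd h1 h
      have h3 : 0 < b := Nat.factorial_pos n
      have h4 : 0 < (i + 1) * b := Nat.mul_pos (Nat.succ_pos i) h3
      simp only [m] at h2
      omega
    · intro h
      exact Finset.dvd_prod_of_mem m (Finset.mem_filter.2 ⟨Finset.mem_range.2 hi, h⟩)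
  constructor
  · rintro ⟨a', b', h1, q, h2⟩
    obtain ⟨rfl, rfl⟩ := nat_pr_inj h1
    refine hdvd.1 ⟨q, ?_⟩
    have h3 : a = q * ((i + 1) * b + 1) := h2
    rw [h3, mul_comm]
  · intro h
    obtain ⟨q, hq⟩ := hdvd.2 h
    refine ⟨a, b, rfl, q, ?_⟩
    show a = q * ((i + 1) * b + 1)
    rw [hq, mul_comm]

end Pool.Agent.TH752.RL
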