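import Pool.Agent.TH752.RL.TypeP

/-!
Iteration of a definable type along a linear order.
-/

set_option autoImplicit false

open FirstOrder FirstOrder.Language
open Pool.Agent.Helper227.EN

universe u w

namespace Pool.Agent.TH752.RL

attribute [local instance] stdStr

theorem realize_congr_fv {N : Type u} [LA.Structure N] {α : Type w} [DecidableEq α]
    (φ : LA.Formula α) {v v' : α → N} (h : ∀ a ∈ φ.freeVarFinset, v a = v' a) :
    φ.Realize v ↔ φ.Realize v' := by
  have h1 : ∀ v : α → N, φ.Realize v ↔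
      Formula.Realize (φ.restrictFreeVar id) (fun a : φ.freeVarFinset => v a) := by
    intro v
    unfold Formula.Realize
    exact (BoundedFormula.realize_restrictFreeVar (φ := φ) (f := id)
      (v := fun a : φ.freeVarFinset => v a)
      (v' := v) (xs := default) (fun a => rfl)).symm
  rw [h1, h1]
  have : (fun a : φ.freeVarFinset => v a) = (fun a : φ.freeVarFinset => v' a) :=
    funext fun a => h a a.2
  rw [this]

section
variable {Ω : Type} [LinearOrder Ω]

/-- arithmetical relations of families indexed by `Ω` -/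
def ArO {α : Type} (R : (α → ℕ) → Prop) : Prop := ∃ φ : LA.Formula α, ∀ u, φ.Realize u ↔ R u

/-- `R` only depends on the coordinates in `F` -/
def Dep {α : Type} (R : (α → ℕ) → Prop) (F : Set α) : Prop :=
  ∀ u u' : α → ℕ, (∀ j ∈ F, u j = u' j) → (R u ↔ R u')

theorem Dep.mono {α : Type} {R : (α → ℕ) → Prop} {F G : Set α} (h : Dep R F) (hFG : F ⊆ G) :
    Dep R G := fun u u' hu => h u u' fun j hj => hu j (hFG hj)

theorem ArO.dep {α : Type} {R : (α → ℕ) → Prop} (h : ArO R) : ∃ F : Finset α, Dep R (F : Set α) := by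
  classical
  obtain ⟨φ, hφ⟩ := h
  refine ⟨φ.freeVarFinset, fun u u' hu => ?_⟩
  rw [← hφ, ← hφ]
  exact realize_congr_fv φ hu

theorem ArO.and {α : Type} {R S : (α → ℕ) → Prop} (h : ArO R) (h' : ArO S) :
    ArO fun u => R u ∧ S u := by
  obtain ⟨φ, hφ⟩ := h
  obtain ⟨ψ, hψ⟩ := h'
  exact ⟨φ ⊓ ψ, fun u => by rw [Formula.realize_inf, hφ, hψ]⟩

theorem ArO.not {α : Type} {R : (α → ℕ) → Prop} (h : ArO R) : ArO fun u => ¬ R u := by
  obtain ⟨φ, hφ⟩ := h
  exact ⟨∼φ, fun u => by rw [Formula.realize_not, hφ]⟩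

theorem ArO.true {α : Type} : ArO fun _ : α → ℕ => True :=
  ⟨∼(⊥ : LA.Formula α), fun u => by rw [Formula.realize_not]; simp⟩

variable (p : Filter ℕ)

/-- almost all values of the coordinate `i` -/
def pd {α : Type} [DecidableEq α] (i : α) (R : (α → ℕ) → Prop) : (α → ℕ) → Prop :=
  fun u => ∀ᶠ x in p, R (Function.update u i x)

/-- the hypotheses on `p` -/
structure IsType : Prop where
  ne : p.NeBot
  lt : ∀ w, ∀ᶠ x in p, w < x
  good : ∀ R : (ℕ → ℕ) → Prop, Ar R → Good p R

variable {p}

/-- rewriting a relation on `α → ℕ` as a relation on sequences -/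
theorem exists_seq {α : Type} [DecidableEq α] {R : (α → ℕ) → Prop} (h : ArO R) (i : α) :
    ∃ (R' : (ℕ → ℕ) → Prop) (k : ℕ → α), Ar R' ∧
      ∀ u x, R (Function.update u i x) ↔ R' (scons x (u ∘ k)) := by
  classical
  obtain ⟨φ, hφ⟩ := h
  let F := φ.freeVarFinset.erase i
  let e := F.equivFin
  let g : α → ℕ := fun j => if h : j ∈ F then (e ⟨j, h⟩ : ℕ) + 1 else 0
  let k : ℕ → α := fun n => if h : n < F.card then (e.symm ⟨n, h⟩ : α) else i
  refine ⟨fun v => (φ.relabel g).Realize v, k, Dfn.fm _, fun u x => ?_⟩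
  show R (Function.update u i x) ↔ (φ.relabel g).Realize (scons x (u ∘ k))
  rw [← hφ, Formula.realize_relabel]
  refine realize_congr_fv φ fun j hj => ?_
  by_cases hji : j = i
  · subst hji
    have : j ∉ F := Finset.notMem_erase j _
    simp [g, this]
  · have hjF : j ∈ F := Finset.mem_erase.2 ⟨hji, hj⟩
    have h1 : g j = (e ⟨j, hjF⟩ : ℕ) + 1 := by simp only [g]; rw [dif_pos hjF]
    have h2 : k (e ⟨j, hjF⟩ : ℕ) = j := by
      simp only [k]
      rw [dif_pos (e ⟨j, hjF⟩).2]
      simp
    rw [Function.update_of_ne hji]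
    show u j = scons x (u ∘ k) (g j)
    rw [h1, scons_succ]
    show u j = u (k _)
    rw [h2]

theorem pd_dec {α : Type} [DecidableEq α] (hp : IsType p) {R : (α → ℕ) → Prop} (h : ArO R)
    (i : α) (u : α → ℕ) : pd p i R u ∨ pd p i (fun u => ¬ R u) u := by
  obtain ⟨R', k, hR', hk⟩ := exists_seq h i
  unfold pd
  simp only [hk]
  exact (hp.good R' hR').1 (u ∘ k)

theorem ArO.pd {α : Type} [DecidableEq α] (hp : IsType p) {R : (α → ℕ) → Prop} (h : ArO R)
    (i : α) : ArO (pd p i R) := by
  obtain ⟨R', k, hR', hk⟩ := exists_seq h i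
  obtain ⟨φ, hφ⟩ := dfn_iff.1 (hp.good R' hR').2
  refine ⟨φ.relabel (fun z => match z with
    | Sum.inl a => absurd a.2 (Set.notMem_empty _)
    | Sum.inr n => k n), fun u => ?_⟩
  rw [Formula.realize_relabel]
  have : u ∘ (fun z : (↥(∅ : Set ℕ)) ⊕ ℕ => match z with
    | Sum.inl a => absurd a.2 (Set.notMem_empty _)
    | Sum.inr n => k n) = Sum.elim Subtype.val (u ∘ k) := by
    funext y
    rcases y with y | y
    · exact absurd y.2 (Set.notMem_empty _)
    · rfl
  rw [this, hφ]
  unfold RL.pd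
  simp only [hk]

theorem pd_and {α : Type} [DecidableEq α] (i : α) (R S : (α → ℕ) → Prop) :
    pd p i (fun u => R u ∧ S u) = fun u => pd p i R u ∧ pd p i S u :=
  funext fun _ => propext Filter.eventually_and

theorem pd_not {α : Type} [DecidableEq α] (hp : IsType p) {R : (α → ℕ) → Prop} (h : ArO R)
    (i : α) : pd p i (fun u => ¬ R u) = fun u => ¬ pd p i R u := by
  funext u
  refine propext ⟨fun h1 h2 => ?_, fun h1 => (pd_dec hp h i u).resolve_left h1⟩
  have := hp.ne
  obtain ⟨x, hx1, hx2⟩ := (Filter.Eventually.and h1 h2).exists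
  exact hx1 hx2

theorem Dep.pd {α : Type} [DecidableEq α] {R : (α → ℕ) → Prop} {G : Set α} (h : Dep R G) (i : α) :
    Dep (pd p i R) (G \ {i}) := by
  intro u u' hu
  unfold RL.pd
  have : ∀ x, R (Function.update u i x) ↔ R (Function.update u' i x) := by
    intro x
    refine h _ _ fun j hj => ?_
    by_cases hji : j = i
    · subst hji
      simp
    · rw [Function.update_of_ne hji, Function.update_of_ne hji]
      exact hu j ⟨hj, hji⟩
  simp only [this]

theorem pd_of_dep {α : Type} [DecidableEq α] (hp : IsType p) {R : (α → ℕ) → Prop} {G : Set α}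
    (h : Dep R G) {i : α} (hi : i ∉ G) : pd p i R = R := by
  funext u
  have := hp.ne
  have h1 : ∀ x, R (Function.update u i x) ↔ R u := by
    intro x
    refine h _ _ fun j hj => ?_
    rw [Function.update_of_ne]
    rintro rfl
    exact hi hj
  unfold RL.pd
  simp only [h1]
  exact propext Filter.eventually_const

variable (p)

/-- the iteration over a finite set (the largest element first) -/
noncomputable def DF (F : Finset Ω) (R : (Ω → ℕ) → Prop) : (Ω → ℕ) → Prop :=
  if h : F.Nonempty then DF (F.erase (F.max' h)) (pd p (F.max' h) R) else R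
termination_by F.card
decreasing_by exact Finset.card_erase_lt_of_mem (F.max'_mem h)

variable {p}

theorem DF_empty (R : (Ω → ℕ) → Prop) : DF p (∅ : Finset Ω) R = R := by
  rw [DF]
  simp

theorem DF_insert {F : Finset Ω} {i : Ω} (hi : ∀ j ∈ F, j < i) (R : (Ω → ℕ) → Prop) :
    DF p (insert i F) R = DF p F (pd p i R) := by
  have hne : (insert i F).Nonempty := Finset.insert_nonempty i F
  have hmax : (insert i F).max' hne = i := by
    apply le_antisymm
    · refine Finset.max'_le _ _ _ fun j hj => ?_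
      rcases Finset.mem_insert.1 hj with rfl | hj
      · exact le_rfl
      · exact (hi j hj).le
    · exact Finset.le_max' _ _ (Finset.mem_insert_self i F)
  have hni : i ∉ F := fun h => lt_irrefl _ (hi i h)
  rw [DF, dif_pos hne, hmax, Finset.erase_insert hni]

theorem DF_ar (hp : IsType p) (F : Finset Ω) : ∀ {R : (Ω → ℕ) → Prop}, ArO R → ArO (DF p F R) := by
  induction F using Finset.induction_on_max with
  | empty => intro R hR; rwa [DF_empty]
  | insert i F hi ih => intro R hR; rw [DF_insert hi]; exact ih (hR.pd hp i)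

theorem DF_and (F : Finset Ω) : ∀ (R S : (Ω → ℕ) → Prop),
    DF p F (fun u => R u ∧ S u) = fun u => DF p F R u ∧ DF p F S u := by
  induction F using Finset.induction_on_max with
  | empty => intro R S; rw [DF_empty, DF_empty, DF_empty]
  | insert i F hi ih => intro R S; rw [DF_insert hi, DF_insert hi, DF_insert hi, pd_and, ih]

theorem DF_not (hp : IsType p) (F : Finset Ω) : ∀ {R : (Ω → ℕ) → Prop}, ArO R →
    DF p F (fun u => ¬ R u) = fun u => ¬ DF p F R u := by
  induction F using Finset.induction_on_max with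
  | empty => intro R _; rw [DF_empty, DF_empty]
  | insert i F hi ih =>
    intro R hR
    rw [DF_insert hi, DF_insert hi, pd_not hp hR, ih (hR.pd hp i)]

theorem DF_true (F : Finset Ω) : DF p F (fun _ => True) = fun _ => True := by
  induction F using Finset.induction_on_max with
  | empty => rw [DF_empty]
  | insert i F hi ih =>
    rw [DF_insert hi]
    have : pd p i (fun _ : Ω → ℕ => True) = fun _ => True :=
      funext fun _ => propext ⟨fun _ => trivial, fun _ => Filter.Eventually.of_forall fun _ => trivial⟩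
    rw [this, ih]

theorem DF_dep (F : Finset Ω) : ∀ {R : (Ω → ℕ) → Prop} {G : Set Ω}, Dep R G →
    Dep (DF p F R) (G \ F) := by
  induction F using Finset.induction_on_max with
  | empty => intro R G h; rw [DF_empty]; simpa using h
  | insert i F hi ih =>
    intro R G h
    rw [DF_insert hi]
    refine (ih (h.pd i)).mono ?_
    intro j hj
    refine ⟨hj.1.1, fun hj' => ?_⟩
    rcases Finset.mem_insert.1 (Finset.mem_coe.1 hj') with h1 | h1
    · exact hj.1.2 h1
    · exact hj.2 h1

theorem DF_irrel (hp : IsType p) (F : Finset Ω) : ∀ {R : (Ω → ℕ) → Prop} {G : Set Ω} {i : Ω},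
    Dep R G → i ∉ G → i ∉ F → DF p (insert i F) R = DF p F R := by
  induction F using Finset.induction_on_max with
  | empty =>
    intro R G i h hi _
    rw [DF_insert (by simp), pd_of_dep hp h hi]
  | insert a F ha ih =>
    intro R G i h hi hiF
    rw [Finset.mem_insert] at hiF
    push Not at hiF
    rcases lt_or_gt_of_ne hiF.1 with h1 | h1
    · rw [Finset.insert_comm, DF_insert (i := a), DF_insert ha]
      · exact ih (h.pd a) (fun h2 => hi h2.1) hiF.2
      · intro j hj
        rcases Finset.mem_insert.1 hj with rfl | hj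
        · exact h1
        · exact ha j hj
    · rw [DF_insert (i := i), pd_of_dep hp h hi]
      intro j hj
      rcases Finset.mem_insert.1 hj with rfl | hj
      · exact h1
      · exact (ha j hj).trans h1

theorem DF_mono (hp : IsType p) {R : (Ω → ℕ) → Prop} {F : Finset Ω} (hR : Dep R (F : Set Ω)) :
    ∀ F' : Finset Ω, DF p (F ∪ F') R = DF p F R := by
  intro F'
  induction F' using Finset.induction_on with
  | empty => simp
  | insert i F' hi ih =>
    by_cases h : i ∈ F ∪ F'
    · have : F ∪ insert i F' = F ∪ F' := by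
        rw [Finset.union_insert, Finset.insert_eq_of_mem h]
      rw [this, ih]
    · rw [Finset.union_insert, DF_irrel hp (F ∪ F') hR (fun h1 => h (Finset.mem_union_left _ h1)) h, ih]

variable (p)

/-- the iterated type -/
def UU (R : (Ω → ℕ) → Prop) : Prop := ∃ F : Finset Ω, Dep R (F : Set Ω) ∧ ∀ u, DF p F R u

variable {p}

theorem UU_iff (hp : IsType p) {R : (Ω → ℕ) → Prop} {F : Finset Ω} (hF : Dep R (F : Set Ω)) :
    UU p R ↔ ∀ u, DF p F R u := by
  constructor
  · rintro ⟨F', hF', h⟩
    have h1 := DF_mono hp hF F'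
    have h2 := DF_mono hp hF' F
    rw [Finset.union_comm] at h2
    rw [← h1, h2]
    exact h
  · intro h
    exact ⟨F, hF, h⟩

theorem UU_iff' (hp : IsType p) {R : (Ω → ℕ) → Prop} {F : Finset Ω} (hF : Dep R (F : Set Ω))
    (u : Ω → ℕ) : UU p R ↔ DF p F R u := by
  rw [UU_iff hp hF]
  refine ⟨fun h => h u, fun h u' => ?_⟩
  refine (DF_dep F hF u u' fun j hj => absurd hj.1 hj.2).1 h

theorem UU_and (hp : IsType p) {R S : (Ω → ℕ) → Prop} (h : UU p R) (h' : UU p S) :
    UU p fun u => R u ∧ S u := by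
  classical
  obtain ⟨F, hF, h1⟩ := h
  obtain ⟨F', hF', h1'⟩ := h'
  refine ⟨F ∪ F', ?_, ?_⟩
  · intro u u' hu
    exact and_congr (hF u u' fun j hj => hu j (by simp [Finset.mem_coe.1 hj]))
      (hF' u u' fun j hj => hu j (by simp [Finset.mem_coe.1 hj]))
  · intro u
    rw [DF_and]
    refine ⟨?_, ?_⟩
    · rw [DF_mono hp hF]
      exact h1 u
    · rw [Finset.union_comm, DF_mono hp hF']
      exact h1' u

theorem UU_not (hp : IsType p) {R : (Ω → ℕ) → Prop} (h : ArO R) :
    (UU p fun u => ¬ R u) ↔ ¬ UU p R := by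
  obtain ⟨F, hF⟩ := h.dep
  have hF' : Dep (fun u => ¬ R u) (F : Set Ω) := fun u u' hu => not_congr (hF u u' hu)
  rw [UU_iff' hp hF' fun _ => 0, UU_iff' hp hF fun _ => 0, DF_not hp F h]

theorem UU_true : UU p fun _ : Ω → ℕ => True :=
  ⟨∅, fun _ _ _ => Iff.rfl, fun u => by rw [DF_true]; trivial⟩

theorem UU_exists (hp : IsType p) {R : (Ω → ℕ) → Prop} (h : ArO R) (hU : UU p R) : ∃ u, R u := by
  by_contra hcon
  push Not at hcon
  have h1 : UU p fun u => ¬ R u := by
    have : (fun u => ¬ R u) = fun _ => True := funext fun u => propext ⟨fun _ => trivial, fun _ => hcon u⟩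
    rw [this]
    exact UU_true
  exact (UU_not hp h).1 h1 hU

variable (p Ω)

/-- the filter of the iterated type -/
def ufil (hp : IsType p) : Filter (Ω → ℕ) where
  sets := {A | ∃ R, ArO R ∧ UU p R ∧ ∀ u, R u → u ∈ A}
  univ_sets := ⟨fun _ => True, ArO.true, UU_true, fun u _ => trivial⟩
  sets_of_superset := by
    rintro A B ⟨R, h1, h2, h3⟩ hAB
    exact ⟨R, h1, h2, fun u hu => hAB (h3 u hu)⟩
  inter_sets := by
    rintro A B ⟨R, h1, h2, h3⟩ ⟨R', h1', h2', h3'⟩
    exact ⟨_, h1.and h1', UU_and hp h2 h2', fun u hu => ⟨h3 u hu.1, h3' u hu.2⟩⟩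

theorem ufil_neBot (hp : IsType p) : (ufil Ω p hp).NeBot := by
  rw [← Filter.empty_mem_iff_bot.not.trans (Filter.neBot_iff.symm)]
  rintro ⟨R, h1, h2, h3⟩
  obtain ⟨u, hu⟩ := UU_exists hp h1 h2
  exact h3 u hu

/-- the ultrafilter -/
noncomputable def uult (hp : IsType p) : Ultrafilter (Ω → ℕ) :=
  haveI := ufil_neBot Ω p hp
  Ultrafilter.of (ufil Ω p hp)

variable {p Ω}

theorem uult_iff (hp : IsType p) {R : (Ω → ℕ) → Prop} (h : ArO R) :
    (∀ᶠ u in (uult Ω p hp : Filter (Ω → ℕ)), R u) ↔ UU p R := by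
  have hle : (uult Ω p hp : Filter (Ω → ℕ)) ≤ ufil Ω p hp := by
    have := ufil_neBot Ω p hp
    exact Ultrafilter.of_le _
  have h1 : ∀ {R : (Ω → ℕ) → Prop}, ArO R → UU p R →
      ∀ᶠ u in (uult Ω p hp : Filter (Ω → ℕ)), R u := by
    intro R hR hU
    exact hle ⟨R, hR, hU, fun u hu => hu⟩
  refine ⟨fun h2 => ?_, h1 h⟩
  by_contra h3
  have h4 := h1 h.not ((UU_not hp h).2 h3)
  obtain ⟨u, hu1, hu2⟩ := (h2.and h4).exists
  exact hu2 hu1

theorem UU_pd (hp : IsType p) {R : (Ω → ℕ) → Prop} (h : ArO R) {i : Ω}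
    (hd : Dep R {j | j ≤ i}) : UU p R ↔ UU p (pd p i R) := by
  classical
  obtain ⟨F0, hF0⟩ := h.dep
  let F := F0.filter (· < i)
  have hF : Dep R ((insert i F : Finset Ω) : Set Ω) := by
    intro u u' hu
    let u'' : Ω → ℕ := fun j => if j ≤ i then u j else u' j
    have e1 : R u ↔ R u'' := hd _ _ fun j hj => by
      have hj' : j ≤ i := hj
      simp [u'', hj']
    have e2 : R u'' ↔ R u' := hF0 _ _ fun j hj => by
      by_cases hj' : j ≤ i
      · simp only [u'', if_pos hj']
        refine hu j ?_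
        rcases hj'.lt_or_eq with h1 | h1
        · simp [F, Finset.mem_coe.1 hj, h1]
        · simp [h1]
      · simp [u'', hj']
    exact e1.trans e2
  have hF' : Dep (pd p i R) (F : Set Ω) := (hF.pd i).mono (by
    intro j hj
    have h1 := hj.1
    rw [Finset.coe_insert] at h1
    exact h1.resolve_left hj.2)
  rw [UU_iff hp hF, UU_iff hp hF', DF_insert (fun j hj => (Finset.mem_filter.1 hj).2)]

end

end Pool.Agent.TH752.RL
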