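import Pool.Agent.TH752.RL.Basic

/-!
The standard model is a model of Peano arithmetic.
-/

set_option autoImplicit false

open FirstOrder FirstOrder.Language
open Pool.Agent.Helper227.EN

namespace Pool.Agent.TH752.RL

attribute [local instance] stdStr

section realiz

theorem na_t0 {α : Type} (v : α → ℕ) : (t0 : LA.Term α).realize v = 0 := by
  have h : (default : Fin 0 → ℕ) = ![] := Subsingleton.elim _ _
  exact Term.realize_constants (L := LA) (c := AF.zero)

theorem na_t1 {α : Type} (v : α → ℕ) : (t1 : LA.Term α).realize v = 1 := by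
  have h : (default : Fin 0 → ℕ) = ![] := Subsingleton.elim _ _
  exact Term.realize_constants (L := LA) (c := AF.one)

theorem na_tadd {α : Type} (v : α → ℕ) (s t : LA.Term α) :
    (tadd s t).realize v = s.realize v + t.realize v :=
  Term.realize_functions_apply₂ (L := LA) (f := AF.add)

theorem na_tmul {α : Type} (v : α → ℕ) (s t : LA.Term α) :
    (tmul s t).realize v = s.realize v * t.realize v :=
  Term.realize_functions_apply₂ (L := LA) (f := AF.mul)

theorem na_flt {α : Type} {n : ℕ} (v : α → ℕ) (xs : Fin n → ℕ) (s t : LA.Term (α ⊕ Fin n)) :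
    (flt s t).Realize v xs ↔ s.realize (Sum.elim v xs) < t.realize (Sum.elim v xs) :=
  BoundedFormula.realize_rel₂ (L := LA) (R := AR.lt)

end realiz

theorem nat_PAminus : ℕ ⊨ PAminus := by
  simp only [PAminus, axAddAssoc, axAddComm, axMulAssoc, axMulComm, axDistrib, axAddZero,
    axMulZero, axMulOne, axLtTrans, axLtIrrefl, axLtTotal, axAddLt, axMulLt, axDiff, axZeroLtOne,
    axDiscrete, axNonneg, Theory.model_iff, Set.mem_insert_iff, Set.mem_singleton_iff,
    forall_eq_or_imp, forall_eq, Sentence.Realize, Formula.Realize, BoundedFormula.realize_all,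
    BoundedFormula.realize_bdEqual, BoundedFormula.realize_imp, BoundedFormula.realize_not,
    BoundedFormula.realize_sup, BoundedFormula.realize_ex, na_t0, na_t1, na_tadd, na_tmul, na_flt,
    Term.realize_var, Sum.elim_inr]
  refine ⟨?_, ?_, ?_, ?_, ?_, ?_, ?_, ?_, ?_, ?_, ?_, ?_, ?_, ?_, ?_, ?_, ?_⟩
  · intro x y z
    exact add_assoc _ _ _
  · intro x y
    exact add_comm _ _
  · intro x y z
    exact mul_assoc _ _ _
  · intro x y
    exact mul_comm _ _
  · intro x y z
    exact mul_add _ _ _
  · intro x
    exact add_zero _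
  · intro x
    exact mul_zero _
  · intro x
    exact mul_one _
  · intro x y z
    exact lt_trans
  · intro x
    exact lt_irrefl _
  · intro x y
    exact lt_trichotomy _ _
  · intro x y z h
    exact Nat.add_lt_add_right h _
  · intro x y z h h'
    exact Nat.mul_lt_mul_of_pos_right h' h
  · intro x y h
    exact ⟨_, Nat.add_sub_of_le (le_of_lt h)⟩
  · exact Nat.zero_lt_one
  · intro x h
    exact Nat.lt_or_eq_of_le (Nat.succ_le_of_lt h)
  · intro x
    exact Nat.lt_or_eq_of_le (Nat.zero_le _)

theorem nat_PA : ℕ ⊨ PA := by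
  rw [Theory.model_iff]
  intro σ hσ
  rcases hσ with h | ⟨n, φ, rfl⟩
  · exact (Theory.model_iff _).1 nat_PAminus σ h
  · rw [realize_indAx φ 0 1 rfl rfl]
    intro y h0 hs x
    induction x with
    | zero => exact h0
    | succ x ih => exact hs x ih

end Pool.Agent.TH752.RL
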