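import Pool.Agent.TH752.RL.Cons
import Pool.Agent.TH752.RL.NatPA

/-!
The pentagon is not a lattice of intermediate structures of an end extension of the model.
-/

set_option autoImplicit false

open FirstOrder FirstOrder.Language
open Pool.Agent.Helper227.EN

universe u w

namespace Pool.Agent.TH752.RL

attribute [local instance] stdStr

/-- the elements of the pentagon -/
inductive P5 : Type
  | o | a | b | c | i
  deriving DecidableEq, Fintype

namespace P5

/-- the order relation -/
def leb : P5 → P5 → Bool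
  | o, _ => true
  | _, i => true
  | a, a => true
  | a, b => true
  | b, b => true
  | c, c => true
  | _, _ => false

/-- the join -/
def jn (x y : P5) : P5 := if leb x y then y else if leb y x then x else i

/-- the meet -/
def mt (x y : P5) : P5 := if leb x y then x else if leb y x then y else o

instance : Lattice P5 where
  le x y := leb x y = true
  le_refl := by decide
  le_trans := by decide
  le_antisymm := by decide
  sup := jn
  inf := mt
  le_sup_left := by decide
  le_sup_right := by decide
  sup_le := by decide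
  inf_le_left := by decide
  inf_le_right := by decide
  le_inf := by decide

instance : DecidableRel (fun x y : P5 => x ≤ y) := fun x y =>
  inferInstanceAs (Decidable (leb x y = true))

instance : BoundedOrder P5 where
  top := i
  bot := o
  le_top := by decide
  bot_le := by decide

end P5

section
variable {M : Type w} {N : Type u} [LA.Structure M] [LA.Structure N]

/-- the image of an elementary embedding is closed under definability -/
theorem dc_range (f : M ↪ₑ[LA] N) {x : N} (hx : Dc (Set.range f) x) : x ∈ Set.range f := by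
  classical
  obtain ⟨φ, hφ⟩ := dfn_iff.1 hx
  have hch : ∀ a : ↥(Set.range f), ∃ m, f m = (a : N) := fun a => a.2
  choose g hg using hch
  let ψ : LA.Formula (↥(Set.range f) ⊕ Unit) := φ.relabel (Sum.map id fun _ => ())
  have h1 : ∀ y, Formula.Realize ψ (Sum.elim (fun a : ↥(Set.range f) => (a : N))
      fun _ : Unit => y) ↔ y = x := by
    intro y
    rw [Formula.realize_relabel, ← hφ fun _ => y]
    have : (Sum.elim (fun a : ↥(Set.range f) => (a : N)) fun _ : Unit => y) ∘
        (Sum.map id fun _ => () : ↥(Set.range f) ⊕ ℕ → ↥(Set.range f) ⊕ Unit) =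
        Sum.elim Subtype.val fun _ => y := by
      funext z
      rcases z with z | z <;> rfl
    rw [this]
  have h2 : (Formula.iExs Unit ψ).Realize (f ∘ g) := by
    rw [Formula.realize_iExs, ex_unit]
    refine ⟨x, ?_⟩
    have e1 : f ∘ g = fun a : ↥(Set.range f) => (a : N) := funext hg
    rw [e1]
    exact (h1 x).2 rfl
  rw [f.map_formula, Formula.realize_iExs, ex_unit] at h2
  obtain ⟨m, hm⟩ := h2
  have h3 := (f.map_formula ψ _).2 hm
  refine ⟨m, (h1 (f m)).1 ?_⟩
  have e2 : (⇑f ∘ Sum.elim g fun _ : Unit => m) =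
      Sum.elim (fun a : ↥(Set.range f) => (a : N)) fun _ : Unit => f m := by
    funext z
    rcases z with z | z
    · exact hg z
    · rfl
  rw [e2] at h3
  exact h3

end

section
variable {p : Filter ℕ} (hp : IsType p)

/-- the pentagon is not realised over the model -/
theorem no_pentagon {N : Type u} [LA.Structure N] (f : ↥(MM hp) ↪ₑ[LA] N)
    (hend : ∀ x : ↥(MM hp), ∀ y : N, y ∉ Set.range f → slt (f x) y)
    (e : P5 ≃o {K : LA.ElementarySubstructure N // Set.range f ⊆ (K : Set N)})
    (hb : ∀ x ∈ (e P5.b).1, ∀ y, y ∉ (e P5.b).1 → slt x y) : False := by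
  have hN : ℕ ≅[LA] N := (MM_equiv hp).trans f.elementarilyEquivalent
  have hle : ∀ x y : P5, x ≤ y → ∀ z ∈ (e x).1, z ∈ (e y).1 := by
    intro x y hxy z hz
    have h1 : e x ≤ e y := e.monotone hxy
    exact h1 hz
  -- the least element
  have h0 : ∀ x, x ∈ (e P5.o).1 ↔ x ∈ Set.range f := by
    intro x
    refine ⟨fun hx => ?_, fun hx => (e P5.o).2 hx⟩
    let R : {K : LA.ElementarySubstructure N // Set.range f ⊆ (K : Set N)} :=
      ⟨hull hN (Set.range f), fun y hy => (mem_hull hN _ _).2 (dc_of_mem hy)⟩
    have h1 : e P5.o ≤ R := by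
      rw [← e.apply_symm_apply R]
      exact e.monotone (bot_le (a := e.symm R))
    have h2 : x ∈ R.1 := h1 hx
    exact dc_range f ((mem_hull hN _ _).1 h2)
  have hmain := pentagon hN (e P5.o).1 (e P5.a).1 (e P5.b).1 (e P5.c).1
    (hle _ _ (by decide)) (hle _ _ (by decide)) (hle _ _ (by decide)) ?_ ?_ hb ?_
  · have h1 : e P5.b ≤ e P5.a := hmain
    have h2 : P5.b ≤ P5.a := e.le_iff_le.1 h1
    exact absurd h2 (by decide)
  · -- the meet
    intro x hxb hxc
    let I : {K : LA.ElementarySubstructure N // Set.range f ⊆ (K : Set N)} :=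
      ⟨hull hN {y | y ∈ (e P5.b).1 ∧ y ∈ (e P5.c).1}, fun y hy => (mem_hull hN _ _).2
        (dc_of_mem ⟨(e P5.b).2 hy, (e P5.c).2 hy⟩)⟩
    have h1 : I ≤ e P5.b := fun y hy =>
      mem_of_dc' ((mem_hull hN _ _).1 hy) fun z hz => hz.1
    have h2 : I ≤ e P5.c := fun y hy =>
      mem_of_dc' ((mem_hull hN _ _).1 hy) fun z hz => hz.2
    have h3 : e.symm I ≤ P5.b := (e.symm_apply_le).2 h1
    have h4 : e.symm I ≤ P5.c := (e.symm_apply_le).2 h2
    have h5 : e.symm I ≤ P5.o := le_inf h3 h4
    have h6 : I ≤ e P5.o := (e.symm_apply_le).1 h5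
    exact h6 ((mem_hull hN _ _).2 (dc_of_mem ⟨hxb, hxc⟩))
  · -- the join
    intro x
    let J : {K : LA.ElementarySubstructure N // Set.range f ⊆ (K : Set N)} :=
      ⟨hull hN (((e P5.a).1 : Set N) ∪ ((e P5.c).1 : Set N)), fun y hy => (mem_hull hN _ _).2
        (dc_of_mem (Or.inl ((e P5.a).2 hy)))⟩
    let T : {K : LA.ElementarySubstructure N // Set.range f ⊆ (K : Set N)} :=
      ⟨⊤, fun y _ => ElementarySubstructure.mem_top y⟩
    have h1 : e P5.a ≤ J := fun y hy => (mem_hull hN _ _).2 (dc_of_mem (Or.inl hy))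
    have h2 : e P5.c ≤ J := fun y hy => (mem_hull hN _ _).2 (dc_of_mem (Or.inr hy))
    have h3 : P5.a ≤ e.symm J := (e.le_symm_apply).2 h1
    have h4 : P5.c ≤ e.symm J := (e.le_symm_apply).2 h2
    have h5 : P5.i ≤ e.symm J := sup_le h3 h4
    have h6 : e P5.i ≤ J := (e.le_symm_apply).1 h5
    have h7 : T ≤ e P5.i := by
      rw [← e.apply_symm_apply T]
      exact e.monotone (le_top (a := e.symm T))
    have h8 : x ∈ J.1 := h6 (h7 (ElementarySubstructure.mem_top x))
    exact (mem_hull hN _ _).1 h8
  · -- conservativity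
    intro S hS
    obtain ⟨S', hS', hSS'⟩ := conservative hp f hend S hS
    refine ⟨S', hS'.mono fun x hx => (h0 x).2 hx, fun x hx => ?_⟩
    obtain ⟨m, rfl⟩ := (h0 x).1 hx
    exact hSS' m

/-- the model is a model of Peano arithmetic -/
theorem MM_PA : ↥(MM hp) ⊨ PA := (MM_equiv hp).theory_model_iff.1 nat_PA

end

end Pool.Agent.TH752.RL
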