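import Pool.Agent.TH752.RL.Iter

/-!
The model generated by a sequence of elements which realise the iterated type.
-/

set_option autoImplicit false

open FirstOrder FirstOrder.Language
open Pool.Agent.Helper227.EN

universe u w

namespace Pool.Agent.TH752.RL

attribute [local instance] stdStr

/-! ### formulas with one distinguished variable -/

theorem ex_unit {K : Type u} (Q : (Unit → K) → Prop) : (∃ i, Q i) ↔ ∃ x, Q fun _ => x :=
  ⟨fun ⟨i, hi⟩ => ⟨i (), hi⟩, fun ⟨_, hx⟩ => ⟨_, hx⟩⟩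

theorem all_unit {K : Type u} (Q : (Unit → K) → Prop) : (∀ i, Q i) ↔ ∀ x, Q fun _ => x :=
  ⟨fun h _ => h _, fun h i => h (i ())⟩

section forms
variable {K : Type u} [LA.Structure K] {α : Type}

/-- the relation defined by a formula with a distinguished variable -/
abbrev PR (P : LA.Formula (α ⊕ Unit)) (u : α → K) (y : K) : Prop :=
  P.Realize (Sum.elim u fun _ => y)

/-- `y` is the unique element with `P` -/
noncomputable def uqF (P : LA.Formula (α ⊕ Unit)) : LA.Formula (α ⊕ Unit) :=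
  P ⊓ Formula.iAlls Unit ((P.relabel (Sum.map Sum.inl id)) ⟹
    (Term.equal (Term.var (Sum.inr ())) (Term.var (Sum.inl (Sum.inr ())))))

theorem pr_uqF (P : LA.Formula (α ⊕ Unit)) (u : α → K) (y : K) :
    PR (uqF P) u y ↔ PR P u y ∧ ∀ y', PR P u y' → y' = y := by
  have e1 : ∀ (i j : Unit → K), (Sum.elim (Sum.elim u i) j) ∘
      (Sum.map Sum.inl id : α ⊕ Unit → (α ⊕ Unit) ⊕ Unit) = Sum.elim u j := by
    intro i j
    funext z
    rcases z with z | z <;> rfl
  have e2 : ∀ (i j : Unit → K), (fun a => Sum.elim (Sum.elim u i) j a) =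
      Sum.elim (Sum.elim u i) j := fun i j => rfl
  unfold PR uqF
  simp only [Formula.realize_inf, Formula.realize_iAlls, Formula.realize_imp,
    Formula.realize_relabel, e1, e2, all_unit, Formula.realize_equal, Term.realize_var,
    Sum.elim_inr, Sum.elim_inl]

/-- there is an element with `P` and `E` -/
noncomputable def exAnd (P E : LA.Formula (α ⊕ Unit)) : LA.Formula α := Formula.iExs Unit (P ⊓ E)

theorem realize_exAnd (P E : LA.Formula (α ⊕ Unit)) (u : α → K) :
    (exAnd P E).Realize u ↔ ∃ y, PR P u y ∧ PR E u y := by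
  unfold exAnd PR
  simp only [Formula.realize_iExs, ex_unit, Formula.realize_inf]

/-- the formula `¬ y < u i` -/
def nltF (i : α) : LA.Formula (α ⊕ Unit) :=
  ∼(Relations.formula₂ (L := LA) AR.lt (Term.var (Sum.inr ())) (Term.var (Sum.inl i)))

theorem pr_nltF (i : α) (u : α → K) (y : K) : PR (nltF i) u y ↔ ¬ slt y (u i) := by
  have e5 : ∀ (w : α ⊕ Unit → K), (Relations.formula₂ (L := LA) AR.lt
      (Term.var (Sum.inr ())) (Term.var (Sum.inl i))).Realize w ↔
      slt (w (Sum.inr ())) (w (Sum.inl i)) := fun w => (Formula.realize_rel₂ (L := LA))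
  unfold PR nltF
  rw [Formula.realize_not, e5]
  rfl

/-- the formula `y ∈ s`, with `s` given by `P` -/
noncomputable def epsP (P : LA.Formula (α ⊕ Unit)) : LA.Formula (α ⊕ Unit) :=
  Formula.iExs Unit ((P.relabel (Sum.map Sum.inl id)) ⊓
    (epsF.relabel fun n => match n with
      | 0 => (Sum.inl (Sum.inr ()) : (α ⊕ Unit) ⊕ Unit)
      | _ + 1 => Sum.inr ()))

theorem pr_epsP (P : LA.Formula (α ⊕ Unit)) (u : α → K) (y : K) :
    PR (epsP P) u y ↔ ∃ s, PR P u s ∧ eps y s := by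
  have e1 : ∀ (i j : Unit → K), (Sum.elim (Sum.elim u i) j) ∘
      (Sum.map Sum.inl id : α ⊕ Unit → (α ⊕ Unit) ⊕ Unit) = Sum.elim u j := by
    intro i j
    funext z
    rcases z with z | z <;> rfl
  unfold PR epsP
  simp only [Formula.realize_iExs, ex_unit, Formula.realize_inf, Formula.realize_relabel, e1,
    realize_epsF]
  rfl

end forms

section
variable {Ω : Type} [LinearOrder Ω] {p : Filter ℕ} (hp : IsType p)

variable (Ω) in
/-- the ultrapower -/
abbrev UM (hp : IsType p) : Type :=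
  (uult Ω p hp : Filter (Ω → ℕ)).Product (fun _ : Ω → ℕ => ℕ)

/-- the generators -/
noncomputable def cc (i : Ω) : UM Ω hp := ((fun u : Ω → ℕ => u i : (Ω → ℕ) → ℕ) : UM Ω hp)

theorem los (φ : LA.Formula Ω) : φ.Realize (cc hp) ↔ UU p fun u => φ.Realize u := by
  have h1 := Ultraproduct.realize_formula_cast (L := LA) (M := fun _ : Ω → ℕ => ℕ)
    (u := uult Ω p hp) φ (fun (i : Ω) (u : Ω → ℕ) => u i)
  rw [← uult_iff hp ⟨φ, fun u => Iff.rfl⟩]
  exact h1

theorem UM_equiv : ℕ ≅[LA] UM Ω hp := by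
  rw [elementarilyEquivalent_iff]
  intro φ
  have h1 := Ultraproduct.sentence_realize (L := LA) (M := fun _ : Ω → ℕ => ℕ)
    (u := uult Ω p hp) φ
  rw [h1]
  exact Filter.eventually_const.symm

/-- elements definable from some of the generators -/
theorem exists_repr {A : Set Ω} {x : UM Ω hp} (hx : Dc (cc hp '' A) x) :
    ∃ P : LA.Formula (Ω ⊕ Unit), (∀ y, PR P (cc hp) y ↔ y = x) ∧
      ∀ u u' : Ω → ℕ, (∀ j ∈ A, u j = u' j) → ∀ y, (PR P u y ↔ PR P u' y) := by
  classical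
  obtain ⟨φ, hφ⟩ := dfn_iff.1 hx
  have hch : ∀ a : ↥(cc hp '' A), ∃ j, j ∈ A ∧ cc hp j = a := fun a => a.2
  choose j hj1 hj2 using hch
  refine ⟨φ.relabel (Sum.map j fun _ => ()), fun y => ?_, fun u u' hu y => ?_⟩
  · rw [PR, Formula.realize_relabel]
    have : (Sum.elim (cc hp) fun _ => y) ∘ (Sum.map j fun _ : ℕ => ()) =
        Sum.elim Subtype.val fun _ => y := by
      funext z
      rcases z with z | z
      · exact hj2 z
      · rfl
    rw [this, hφ]
  · rw [PR, PR, Formula.realize_relabel, Formula.realize_relabel]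
    have : (Sum.elim u fun _ => y) ∘ (Sum.map j fun _ : ℕ => ()) =
        (Sum.elim u' fun _ => y) ∘ (Sum.map j fun _ : ℕ => ()) := by
      funext z
      rcases z with z | z
      · exact hu _ (hj1 z)
      · rfl
    rw [this]

/-- the elements definable from the generators before `i` -/
def Mi (i : Ω) (x : UM Ω hp) : Prop := Dc (cc hp '' {j | j < i}) x

theorem Mi_lt {i : Ω} {x : UM Ω hp} (hx : Mi hp i x) : slt x (cc hp i) := by
  classical
  by_contra hcon
  obtain ⟨P, hP, hdep⟩ := exists_repr hp hx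
  have h1 : (exAnd (uqF P) (nltF i)).Realize (cc hp) := by
    rw [realize_exAnd]
    refine ⟨x, (pr_uqF _ _ _).2 ⟨(hP x).2 rfl, fun y' hy' => (hP y').1 hy'⟩, ?_⟩
    rw [pr_nltF]
    exact hcon
  rw [los] at h1
  have hR : ∀ u : Ω → ℕ, (exAnd (uqF P) (nltF i)).Realize u ↔
      ∃ y, (PR P u y ∧ ∀ y', PR P u y' → y' = y) ∧ ¬ y < u i := by
    intro u
    rw [realize_exAnd]
    simp only [pr_uqF, pr_nltF, nat_slt]
  simp only [hR] at h1
  have hAr : ArO fun u : Ω → ℕ => ∃ y, (PR P u y ∧ ∀ y', PR P u y' → y' = y) ∧ ¬ y < u i :=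
    ⟨_, hR⟩
  have hD : Dep (fun u : Ω → ℕ => ∃ y, (PR P u y ∧ ∀ y', PR P u y' → y' = y) ∧ ¬ y < u i)
      {j | j ≤ i} := by
    intro u u' hu
    have e1 : ∀ y, (PR P u y ↔ PR P u' y) := hdep u u' fun j hj => hu j (le_of_lt hj)
    have e2 : u i = u' i := hu i le_rfl
    simp only [e1, e2]
  rw [UU_pd hp hAr hD] at h1
  obtain ⟨u, hu⟩ := UU_exists hp (hAr.pd hp i) h1
  have hne := hp.ne
  have hdu : ∀ t y, PR P (Function.update u i t) y ↔ PR P u y := fun t =>
    hdep _ _ fun j hj => Function.update_of_ne (ne_of_lt hj) _ _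
  have hu' : ∀ᶠ t in p, ∃ y, (PR P u y ∧ ∀ y', PR P u y' → y' = y) ∧ ¬ y < t := by
    refine Filter.Eventually.mono hu fun t ht => ?_
    simp only [hdu, Function.update_self] at ht
    exact ht
  obtain ⟨t, y, ⟨hy1, hy2⟩, -⟩ := hu'.exists
  obtain ⟨t', ⟨y', ⟨hy'1, -⟩, hy'2⟩, ht'⟩ := (hu'.and (hp.lt y)).exists
  have : y' = y := hy2 y' hy'1
  subst this
  exact hy'2 ht'

/-- elimination of the generators from `i` on -/
theorem elim_gen (i : Ω) : ∀ (n : ℕ) (E : LA.Formula (Ω ⊕ Unit)) (F : Finset Ω),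
    (∀ u u' : Ω → ℕ, (∀ j ∈ F, u j = u' j) → ∀ y, (PR E u y ↔ PR E u' y)) →
    (F.filter (i ≤ ·)).card = n →
    ∃ (E' : LA.Formula (Ω ⊕ Unit)) (F' : Finset Ω), (∀ j ∈ F', j < i) ∧
      (∀ u u' : Ω → ℕ, (∀ j ∈ F', u j = u' j) → ∀ y, (PR E' u y ↔ PR E' u' y)) ∧
      ∀ x, Mi hp i x → (PR E (cc hp) x ↔ PR E' (cc hp) x) := by
  classical
  intro n
  induction n with
  | zero =>
    intro E F hE hF
    refine ⟨E, F, fun j hj => ?_, hE, fun x _ => Iff.rfl⟩
    by_contra hcon
    have h1 : j ∈ F.filter (i ≤ ·) := Finset.mem_filter.2 ⟨hj, not_lt.1 hcon⟩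
    rw [Finset.card_eq_zero.1 hF] at h1
    exact absurd h1 (Finset.notMem_empty j)
  | succ n ih =>
    intro E F hE hF
    have hne : (F.filter (i ≤ ·)).Nonempty := by
      rw [← Finset.card_pos, hF]
      exact Nat.succ_pos n
    obtain ⟨j, hj, hjmax⟩ : ∃ j ∈ F.filter (i ≤ ·), ∀ k ∈ F.filter (i ≤ ·), k ≤ j :=
      ⟨_, Finset.max'_mem _ hne, fun k hk => Finset.le_max' _ k hk⟩
    have hjF : j ∈ F := (Finset.mem_filter.1 hj).1
    have hij : i ≤ j := (Finset.mem_filter.1 hj).2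
    have hmax : ∀ k ∈ F, k ≤ j := by
      intro k hk
      by_cases h : i ≤ k
      · exact hjmax k (Finset.mem_filter.2 ⟨hk, h⟩)
      · exact (le_of_not_ge h).trans hij
    have hEA : ArO fun z : Ω ⊕ Unit → ℕ => E.Realize z := ⟨E, fun _ => Iff.rfl⟩
    obtain ⟨E1, hE1⟩ := hEA.pd hp (Sum.inl j)
    have hE1' : ∀ (u : Ω → ℕ) y, PR E1 u y ↔ ∀ᶠ x in p, PR E (Function.update u j x) y := by
      intro u y
      rw [PR, hE1]
      unfold pd
      simp only [Sum.update_elim_inl]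
    have hE1d : ∀ u u' : Ω → ℕ, (∀ k ∈ F.erase j, u k = u' k) → ∀ y, (PR E1 u y ↔ PR E1 u' y) := by
      intro u u' hu y
      rw [hE1', hE1']
      have : ∀ x, PR E (Function.update u j x) y ↔ PR E (Function.update u' j x) y := by
        intro x
        refine hE _ _ (fun k hk => ?_) y
        by_cases hkj : k = j
        · subst hkj
          simp
        · rw [Function.update_of_ne hkj, Function.update_of_ne hkj]
          exact hu k (Finset.mem_erase.2 ⟨hkj, hk⟩)
      simp only [this]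
    have hcard : ((F.erase j).filter (i ≤ ·)).card = n := by
      have : (F.erase j).filter (i ≤ ·) = (F.filter (i ≤ ·)).erase j := by
        ext k
        simp only [Finset.mem_filter, Finset.mem_erase]
        tauto
      rw [this, Finset.card_erase_of_mem hj, hF]
      rfl
    obtain ⟨E', F', h1, h2, h3⟩ := ih E1 (F.erase j) hE1d hcard
    refine ⟨E', F', h1, h2, fun x hx => ?_⟩
    rw [← h3 x hx]
    obtain ⟨P, hP, hdep⟩ := exists_repr hp hx
    have hux : PR (uqF P) (cc hp) x :=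
      (pr_uqF _ _ _).2 ⟨(hP x).2 rfl, fun y' hy' => (hP y').1 hy'⟩
    have huy : ∀ y, PR (uqF P) (cc hp) y → y = x := fun y hy =>
      (hP y).1 ((pr_uqF _ _ _).1 hy).1
    have hred : ∀ E : LA.Formula (Ω ⊕ Unit), PR E (cc hp) x ↔
        UU p fun u => ∃ y, (PR P u y ∧ ∀ y', PR P u y' → y' = y) ∧ PR E u y := by
      intro E
      have e1 : PR E (cc hp) x ↔ (exAnd (uqF P) E).Realize (cc hp) := by
        rw [realize_exAnd]
        constructor
        · intro h
          exact ⟨x, hux, h⟩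
        · rintro ⟨y, hy1, hy2⟩
          rw [huy y hy1] at hy2
          exact hy2
      rw [e1, los]
      have e2 : (fun u : Ω → ℕ => (exAnd (uqF P) E).Realize u) =
          fun u => ∃ y, (PR P u y ∧ ∀ y', PR P u y' → y' = y) ∧ PR E u y := by
        funext u
        rw [realize_exAnd]
        simp only [pr_uqF]
      rw [e2]
    rw [hred, hred]
    have hAr : ArO fun u : Ω → ℕ => ∃ y, (PR P u y ∧ ∀ y', PR P u y' → y' = y) ∧ PR E u y :=
      ⟨exAnd (uqF P) E, fun u => by rw [realize_exAnd]; simp only [pr_uqF]⟩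
    have hD : Dep (fun u : Ω → ℕ => ∃ y, (PR P u y ∧ ∀ y', PR P u y' → y' = y) ∧ PR E u y)
        {k | k ≤ j} := by
      intro u u' hu
      have e1 : ∀ y, (PR P u y ↔ PR P u' y) := hdep u u' fun k hk => hu k ((le_of_lt hk).trans hij)
      have e2 : ∀ y, (PR E u y ↔ PR E u' y) := hE u u' fun k hk => hu k (hmax k hk)
      simp only [e1, e2]
    rw [UU_pd hp hAr hD]
    have : pd p j (fun u : Ω → ℕ => ∃ y, (PR P u y ∧ ∀ y', PR P u y' → y' = y) ∧ PR E u y) =
        fun u => ∃ y, (PR P u y ∧ ∀ y', PR P u y' → y' = y) ∧ PR E1 u y := by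
      funext u
      have hne := hp.ne
      have hdu : ∀ t y, PR P (Function.update u j t) y ↔ PR P u y := fun t =>
        hdep _ _ fun k hk => Function.update_of_ne (ne_of_lt (lt_of_lt_of_le hk hij)) _ _
      unfold pd
      simp only [hdu, hE1']
      refine propext ⟨fun h => ?_, ?_⟩
      · obtain ⟨t, y, ⟨hy1, hy2⟩, -⟩ := h.exists
        refine ⟨y, ⟨hy1, hy2⟩, h.mono ?_⟩
        rintro t' ⟨y', ⟨hy'1, -⟩, hy'3⟩
        rw [hy2 y' hy'1] at hy'3
        exact hy'3
      · rintro ⟨y, hy, h⟩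
        exact h.mono fun t ht => ⟨y, hy, ht⟩
    rw [this]

/-- the elements of a coded set definable from the generators before `i` -/
theorem code_trace (s : UM Ω hp) (hs : Dc (Set.range (cc hp)) s) (i j0 : Ω) (hj0 : j0 < i) :
    ∃ (j : Ω) (_ : j < i) (δ : LA.Formula (↥(Set.Iic j) ⊕ Unit)), ∀ x, Mi hp i x →
      (eps x s ↔ PR δ (fun k : ↥(Set.Iic j) => cc hp (k : Ω)) x) := by
  classical
  rw [← Set.image_univ] at hs
  obtain ⟨P, hP, -⟩ := exists_repr hp hs
  obtain ⟨F, hF⟩ := (show ArO fun z : Ω ⊕ Unit → ℕ => (epsP P).Realize z from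
    ⟨epsP P, fun _ => Iff.rfl⟩).dep
  let F1 : Finset Ω := F.toLeft
  have hF1 : ∀ u u' : Ω → ℕ, (∀ j ∈ F1, u j = u' j) → ∀ y, (PR (epsP P) u y ↔ PR (epsP P) u' y) := by
    intro u u' hu y
    refine hF _ _ fun z hz => ?_
    rcases z with z | z
    · exact hu z (by simpa [F1] using hz)
    · rfl
  obtain ⟨E', F', h1, h2, h3⟩ := elim_gen hp i _ (epsP P) F1 hF1 rfl
  have hne : (insert j0 F').Nonempty := Finset.insert_nonempty _ _
  obtain ⟨j, hj, hjmax⟩ : ∃ j ∈ insert j0 F', ∀ k ∈ insert j0 F', k ≤ j :=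
    ⟨_, Finset.max'_mem _ hne, fun k hk => Finset.le_max' _ k hk⟩
  have hji : j < i := by
    rcases Finset.mem_insert.1 hj with h4 | h4
    · rw [h4]
      exact hj0
    · exact h1 j h4
  let r : Ω → ↥(Set.Iic j) := fun k => if h : k ≤ j then ⟨k, h⟩ else ⟨j, le_rfl⟩
  refine ⟨j, hji, E'.relabel (Sum.map r id), fun x hx => ?_⟩
  have e1 : eps x s ↔ PR (epsP P) (cc hp) x := by
    rw [pr_epsP]
    constructor
    · intro h
      exact ⟨s, (hP s).2 rfl, h⟩
    · rintro ⟨s', hs', h⟩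
      rw [(hP s').1 hs'] at h
      exact h
  rw [e1, h3 x hx]
  have h4 : ∀ v : Ω ⊕ Unit → ℕ,
      (Formula.iff E' (E'.relabel (Sum.map (fun k => ((r k : ↥(Set.Iic j)) : Ω)) id))).Realize v := by
    intro v
    rw [Formula.realize_iff, Formula.realize_relabel]
    have e2 : v = Sum.elim (v ∘ Sum.inl) (fun _ => v (Sum.inr ())) := by
      funext z
      rcases z with z | z <;> rfl
    have e3 : v ∘ (Sum.map (fun k => ((r k : ↥(Set.Iic j)) : Ω)) id : Ω ⊕ Unit → Ω ⊕ Unit) =
        Sum.elim (fun k => v (Sum.inl (r k))) (fun _ => v (Sum.inr ())) := by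
      funext z
      rcases z with z | z <;> rfl
    rw [e3]
    conv_lhs => rw [e2]
    refine h2 _ _ (fun k hk => ?_) _
    have h5 : k ≤ j := hjmax k (Finset.mem_insert_of_mem hk)
    simp [r, h5]
  have h5 := transfer (UM_equiv hp) _ h4 (Sum.elim (cc hp) fun _ => x)
  rw [Formula.realize_iff, Formula.realize_relabel] at h5
  rw [PR, PR, h5, Formula.realize_relabel]
  have e4 : (Sum.elim (cc hp) fun _ => x) ∘
      (Sum.map (fun k => ((r k : ↥(Set.Iic j)) : Ω)) id : Ω ⊕ Unit → Ω ⊕ Unit) =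
      (Sum.elim (fun k : ↥(Set.Iic j) => cc hp (k : Ω)) fun _ => x) ∘
      (Sum.map r id : Ω ⊕ Unit → ↥(Set.Iic j) ⊕ Unit) := by
    funext z
    rcases z with z | z <;> rfl
  rw [e4]

end

end Pool.Agent.TH752.RL
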