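import Pool.Agent.TH752.RL.Dfn

/-!
Pairing, and the argument which excludes the pentagon over a conservatively extended model.
-/

set_option autoImplicit false

open FirstOrder FirstOrder.Language
open Pool.Agent.Helper227.EN

universe u w

namespace Pool.Agent.TH752.RL

attribute [local instance] stdStr

section
variable {N : Type u} [LA.Structure N]

/-- the pairing function `(x + y)² + x` -/
def pr (x y : N) : N := sadd (smul (sadd x y) (sadd x y)) x

/-- the term of the pairing function -/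
def prT {α : Type w} (s t : LA.Term α) : LA.Term α := ta (tm (ta s t) (ta s t)) s

@[simp] theorem realize_prT {α : Type w} (v : α → N) (s t : LA.Term α) :
    (prT s t).realize v = pr (s.realize v) (t.realize v) := by
  unfold prT pr
  rw [realize_tadd, realize_tmul, realize_tadd]

theorem nat_pr_inj {x y x' y' : ℕ} (h : pr x y = pr x' y') : x = x' ∧ y = y' := by
  simp only [pr, nat_sadd, nat_smul] at h
  have h1 : x + y = x' + y' := by
    rcases lt_trichotomy (x + y) (x' + y') with h2 | h2 | h2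
    · have : (x + y + 1) * (x + y + 1) ≤ (x' + y') * (x' + y') := Nat.mul_le_mul h2 h2
      nlinarith
    · exact h2
    · have : (x' + y' + 1) * (x' + y' + 1) ≤ (x + y) * (x + y) := Nat.mul_le_mul h2 h2
      nlinarith
  rw [h1] at h
  omega

theorem pr_inj (h : ℕ ≅[LA] N) {x y x' y' : N} (hp : pr x y = pr x' y') : x = x' ∧ y = y' := by
  have := transfer h ((eqF (prT (va 0) (va 1)) (prT (va 2) (va 3))) ⟹
    (eqF (va 0) (va 2) ⊓ eqF (va 1) (va 3)))
    (by intro v; simp only [Formula.realize_imp, Formula.realize_inf, realize_eqF,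
          Term.realize_var, realize_prT]
        exact nat_pr_inj) (scons x (scons y (scons x' (fun _ => y'))))
  have h2 : pr x y = pr x' y' → x = x' ∧ y = y' := by
    simpa [scons] using this
  exact h2 hp

theorem pr_mem {K : LA.ElementarySubstructure N} {x y : N} (hx : x ∈ K) (hy : y ∈ K) :
    pr x y ∈ K := by
  have h1 : ∀ a b : N, a ∈ K → b ∈ K → sadd a b ∈ K := by
    intro a b ha hb
    refine K.toSubstructure.fun_mem AF.add ![a, b] ?_
    intro i
    fin_cases i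
    · exact ha
    · exact hb
  have h2 : ∀ a b : N, a ∈ K → b ∈ K → smul a b ∈ K := by
    intro a b ha hb
    refine K.toSubstructure.fun_mem AF.mul ![a, b] ?_
    intro i
    fin_cases i
    · exact ha
    · exact hb
  exact h1 _ _ (h2 _ _ (h1 _ _ hx hy) (h1 _ _ hx hy)) hx

theorem sone_mem (K : LA.ElementarySubstructure N) : (sone : N) ∈ K :=
  K.toSubstructure.fun_mem AF.one ![] (fun i => i.elim0)

theorem dfn_pr {A : Set N} (i j k : ℕ) : Dfn A fun v => v i = pr (v j) (v k) :=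
  (Dfn.fm (eqF (va i) (prT (va j) (va k)))).congr fun v => by simp

theorem dc_pr_left (h : ℕ ≅[LA] N) (x y : N) : Dc {pr x y} x := by
  have h1 : Dfn ({pr x y} : Set N) fun v => ∃ y' z, (scons z (scons y' v)) 0 = pr x y ∧
      (scons z (scons y' v)) 0 = pr ((scons z (scons y' v)) 2) ((scons z (scons y' v)) 1) :=
    Dfn.ex (R := fun w => ∃ z, (scons z w) 0 = pr x y ∧ (scons z w) 0 =
      pr ((scons z w) 2) ((scons z w) 1))
      (Dfn.ex (R := fun w => w 0 = pr x y ∧ w 0 = pr (w 2) (w 1))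
        ((Dfn.const (a := pr x y) (Set.mem_singleton _) 0).and (dfn_pr 0 2 1)))
  refine h1.congr fun v => ?_
  constructor
  · rintro ⟨y', z, h2, h3⟩
    have h4 : pr x y = pr (v 0) y' := h2.symm.trans h3
    exact (pr_inj h h4).1.symm
  · intro hv
    exact ⟨y, pr x y, rfl, by show pr x y = pr (v 0) y; rw [hv]⟩

theorem dc_pr_right (h : ℕ ≅[LA] N) (x y : N) : Dc {pr x y} y := by
  have h1 : Dfn ({pr x y} : Set N) fun v => ∃ y' z, (scons z (scons y' v)) 0 = pr x y ∧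
      (scons z (scons y' v)) 0 = pr ((scons z (scons y' v)) 1) ((scons z (scons y' v)) 2) :=
    Dfn.ex (R := fun w => ∃ z, (scons z w) 0 = pr x y ∧ (scons z w) 0 =
      pr ((scons z w) 1) ((scons z w) 2))
      (Dfn.ex (R := fun w => w 0 = pr x y ∧ w 0 = pr (w 1) (w 2))
        ((Dfn.const (a := pr x y) (Set.mem_singleton _) 0).and (dfn_pr 0 1 2)))
  refine h1.congr fun v => ?_
  constructor
  · rintro ⟨y', z, h2, h3⟩
    have h4 : pr x y = pr y' (v 0) := h2.symm.trans h3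
    exact (pr_inj h h4).2.symm
  · intro hv
    exact ⟨x, pr x y, rfl, by show pr x y = pr x (v 0); rw [hv]⟩

/-- finitely many elements of an elementary substructure are definable from one of its elements -/
theorem exists_code (h : ℕ ≅[LA] N) (K : LA.ElementarySubstructure N) (F : Finset N)
    (hF : ∀ b ∈ F, b ∈ K) : ∃ a ∈ K, ∀ b ∈ F, Dc {a} b := by
  classical
  induction F using Finset.induction_on with
  | empty => exact ⟨sone, sone_mem K, by simp⟩
  | insert b F hb ih =>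
    obtain ⟨a, ha, ha'⟩ := ih fun c hc => hF c (Finset.mem_insert_of_mem hc)
    refine ⟨pr b a, pr_mem (hF b (Finset.mem_insert_self b F)) ha, fun c hc => ?_⟩
    rcases Finset.mem_insert.1 hc with rfl | hc
    · exact dc_pr_left h c a
    · exact (ha' c hc).trans fun d hd => by
        rw [Set.mem_singleton_iff.1 hd]
        exact dc_pr_right h b a

/-- the argument which excludes the pentagon -/
theorem pentagon (h : ℕ ≅[LA] N) (K0 Ka Kb Kc : LA.ElementarySubstructure N)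
    (h0a : ∀ x ∈ K0, x ∈ Ka) (hab : ∀ x ∈ Ka, x ∈ Kb) (h0c : ∀ x ∈ K0, x ∈ Kc)
    (hbc : ∀ x ∈ Kb, x ∈ Kc → x ∈ K0) (hjoin : ∀ x : N, Dc ((Ka : Set N) ∪ Kc) x)
    (hend : ∀ x ∈ Kb, ∀ y, y ∉ Kb → slt x y)
    (hcons : ∀ S : N → Prop, Dfn Set.univ (fun v => S (v 0)) →
      ∃ S' : N → Prop, Dfn (K0 : Set N) (fun v => S' (v 0)) ∧ ∀ x ∈ K0, S x ↔ S' x) :
    ∀ x ∈ Kb, x ∈ Ka := by
  classical
  intro β hβ
  obtain ⟨A0, hA0, hA0'⟩ := (hjoin β).finite
  obtain ⟨α, hα, hα'⟩ := exists_code h Ka (A0.filter fun b => b ∈ Ka)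
    (fun b hb => (Finset.mem_filter.1 hb).2)
  have h1 : Dc (insert α (Kc : Set N)) β := by
    refine hA0'.trans fun b hb => ?_
    by_cases hb' : b ∈ Ka
    · exact (hα' b (Finset.mem_filter.2 ⟨hb, hb'⟩)).mono
        (Set.singleton_subset_iff.2 (Set.mem_insert _ _))
    · rcases hA0 hb with h2 | h2
      · exact absurd h2 hb'
      · exact dc_of_mem (Set.mem_insert_of_mem _ h2)
  obtain ⟨T, hT, hT'⟩ := Dfn.of_insert h1
  -- `T' u y`
  let T' : N → N → Prop := fun u y => T (scons u fun _ => y)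
  have hT1 : ∀ i j : ℕ, Dfn (Kc : Set N) fun v => T' (v i) (v j) := by
    intro i j
    refine (hT.ren (fun n => match n with | 0 => i | _ + 1 => j)).congr fun v => ?_
    have : v ∘ (fun n => match n with | 0 => i | _ + 1 => j) = scons (v i) fun _ => v j := by
      funext n
      cases n <;> rfl
    rw [this]
  have hT2 : ∀ y, T' α y ↔ y = β := fun y => (hT' fun _ => y).symm
  let S : N → Prop := fun w => ∃ y u, w = pr y u ∧ T' u y ∧ ∀ y', T' u y' → y' = y
  have hS : Dfn (Kc : Set N) fun v => S (v 0) := by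
    have h2 : Dfn (Kc : Set N) fun v => v 2 = pr (v 1) (v 0) ∧ T' (v 0) (v 1) ∧
        ∀ y', T' ((scons y' v) 1) ((scons y' v) 0) → (scons y' v) 0 = (scons y' v) 2 :=
      (dfn_pr 2 1 0).and ((hT1 0 1).and ((hT1 1 0).imp (Dfn.eq 0 2)).all)
    exact h2.ex.ex
  obtain ⟨S', hS', hSS'⟩ := hcons S (hS.mono (Set.subset_univ _))
  have hS'c : Dfn (Kc : Set N) fun v => S' (v 0) := hS'.mono h0c
  have hSd : S (pr β α) := ⟨β, α, rfl, (hT2 β).2 rfl, fun y' hy' => (hT2 y').1 hy'⟩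
  have hmain : S' (pr β α) := by
    by_contra hcon
    have hD : Dfn (Kc : Set N) fun v => ¬ (S (v 0) ↔ S' (v 0)) := (hS.iff hS'c).not
    obtain ⟨w, hw1, hw2, hw3⟩ := exists_dc h (S := fun x => ¬ (S x ↔ S' x)) hD
      ⟨pr β α, fun h2 => hcon (h2.1 hSd)⟩
    have hwc : w ∈ Kc := mem_of_dc hw2
    have hw0 : w ∉ K0 := fun h2 => hw1 (hSS' w h2)
    have hwb : w ∉ Kb := fun h2 => hw0 (hbc w h2 hwc)
    exact hw3 (pr β α) (hend _ (pr_mem hβ (hab α hα)) w hwb) fun h2 => hcon (h2.1 hSd)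
  -- uniqueness in `K0`
  have huniq0 : ∀ y y' u, y ∈ K0 → y' ∈ K0 → u ∈ K0 → S' (pr y u) → S' (pr y' u) → y = y' := by
    intro y y' u hy hy' hu h2 h3
    obtain ⟨y1, u1, e1, e2, e3⟩ := (hSS' _ (pr_mem hy hu)).2 h2
    obtain ⟨y2, u2, f1, f2, f3⟩ := (hSS' _ (pr_mem hy' hu)).2 h3
    obtain ⟨rfl, rfl⟩ := pr_inj h e1
    obtain ⟨rfl, rfl⟩ := pr_inj h f1
    exact f3 _ e2
  have hpr' : ∀ {A : Set N} (i j : ℕ), (K0 : Set N) ⊆ A → Dfn A fun v => S' (pr (v i) (v j)) := by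
    intro A i j hA
    have h2 : Dfn A fun v => v 0 = pr (v (i + 1)) (v (j + 1)) ∧ S' (v 0) :=
      (dfn_pr 0 (i + 1) (j + 1)).and (hS'.mono hA)
    refine h2.ex.congr fun v => ?_
    constructor
    · rintro ⟨z, hz, hz'⟩
      have e : z = pr (v i) (v j) := hz
      rw [← e]
      exact hz'
    · intro hz
      exact ⟨_, rfl, hz⟩
  have huniq : ∀ y y' u, S' (pr y u) → S' (pr y' u) → y = y' := by
    by_contra hcon
    push Not at hcon
    obtain ⟨y, y', u, h2, h3, h4⟩ := hcon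
    have hd1 : Dfn (K0 : Set N) fun v => S' (pr (v 1) (v 2)) ∧ S' (pr (v 0) (v 2)) ∧ ¬ v 1 = v 0 :=
      (hpr' 1 2 le_rfl).and ((hpr' 0 2 le_rfl).and (Dfn.eq 1 0).not)
    obtain ⟨u0, ⟨y0, y0', e1, e2, e3⟩, hu0, -⟩ := exists_dc h
      (S := fun u => ∃ y y', S' (pr y u) ∧ S' (pr y' u) ∧ ¬ y = y') hd1.ex.ex ⟨u, y, y', h2, h3, h4⟩
    have hu0' : u0 ∈ K0 := mem_of_dc hu0
    have hd2 : Dfn (K0 : Set N) fun v => S' (pr (v 1) (v 2)) ∧ S' (pr (v 0) (v 2)) ∧ ¬ v 1 = v 0 :=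
      hd1
    have hd3 : Dfn (K0 : Set N) fun v => ∃ y', S' (pr (v 0) u0) ∧ S' (pr y' u0) ∧ ¬ v 0 = y' := by
      have h5 : Dfn (K0 : Set N) fun v => ∃ y', S' (pr (v 1) (v 0)) ∧ S' (pr y' (v 0)) ∧ ¬ v 1 = y' := by
        have h6 : Dfn (K0 : Set N) fun v => S' (pr (v 2) (v 1)) ∧ S' (pr (v 0) (v 1)) ∧
            ¬ v 2 = v 0 :=
          (hpr' 2 1 le_rfl).and ((hpr' 0 1 le_rfl).and (Dfn.eq 2 0).not)
        exact h6.ex
      exact h5.subst hu0
    obtain ⟨y1, ⟨y1', g1, g2, g3⟩, hy1, -⟩ := exists_dc h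
      (S := fun y => ∃ y', S' (pr y u0) ∧ S' (pr y' u0) ∧ ¬ y = y') hd3 ⟨y0, y0', e1, e2, e3⟩
    have hy1' : y1 ∈ K0 := mem_of_dc hy1
    have hd4 : Dfn (K0 : Set N) fun v => S' (pr (v 0) u0) ∧ ¬ y1 = v 0 := by
      have h5 : Dfn (K0 : Set N) fun v => S' (pr (v 2) (v 1)) ∧ ¬ v 0 = v 2 :=
        (hpr' 2 1 le_rfl).and (Dfn.eq 0 2).not
      exact (h5.subst hy1).subst hu0
    obtain ⟨y2, ⟨k1, k2⟩, hy2, -⟩ := exists_dc h
      (S := fun y => S' (pr y u0) ∧ ¬ y1 = y) hd4 ⟨y1', g2, g3⟩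
    exact k2 (huniq0 y1 y2 u0 hy1' (mem_of_dc hy2) hu0' g1 k1)
  have hfin : Dc (insert α (K0 : Set N)) β := by
    have h2 : Dfn (insert α (K0 : Set N)) fun v => S' (pr (v 1) (v 0)) :=
      hpr' 1 0 (Set.subset_insert _ _)
    have h3 := h2.subst (dc_of_mem (Set.mem_insert α (K0 : Set N)))
    refine h3.congr fun v => ?_
    constructor
    · intro h4
      exact huniq _ _ α h4 hmain
    · intro h4
      show S' (pr (v 0) α)
      rw [h4]
      exact hmain
  refine mem_of_dc' hfin ?_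
  intro x hx
  rcases hx with rfl | hx
  · exact hα
  · exact h0a x hx

end

end Pool.Agent.TH752.RL
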