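import Pool.Agent.TH752.RL.Eps

/-!
A definable type over the standard model: a filter on `ℕ` which decides all the arithmetical sets,
such that for each arithmetical relation `R v x` the set of the `v` with `R v x` for almost all
`x` is arithmetical.
-/

set_option autoImplicit false

open FirstOrder FirstOrder.Language
open Pool.Agent.Helper227.EN

universe u w

namespace Pool.Agent.TH752.RL

attribute [local instance] stdStr

/-- arithmetical relations -/
abbrev Ar (R : (ℕ → ℕ) → Prop) : Prop := Dfn (∅ : Set ℕ) R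

section refine
variable (X : ℕ → Prop) (R : ℕ → ℕ → Prop)

/-- the leftmost branch -/
def Dd : ℕ → Prop
  | n => ∀ w, ∃ x, w < x ∧ X x ∧ (∀ i, (h : i < n) → (R i x ↔ Dd i)) ∧ R n x
termination_by n => n
decreasing_by exact h

theorem Dd_iff (n : ℕ) : Dd X R n ↔ ∀ w, ∃ x, w < x ∧ X x ∧ (∀ i < n, (R i x ↔ Dd X R i)) ∧ R n x := by
  rw [Dd]

theorem Dd_inf (hX : ∀ w, ∃ x, w < x ∧ X x) (n : ℕ) :
    ∀ w, ∃ x, w < x ∧ X x ∧ ∀ i < n, (R i x ↔ Dd X R i) := by
  induction n with
  | zero =>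
    intro w
    obtain ⟨x, h1, h2⟩ := hX w
    exact ⟨x, h1, h2, fun i hi => absurd hi (Nat.not_lt_zero i)⟩
  | succ n ih =>
    by_cases hD : Dd X R n
    · intro w
      obtain ⟨x, h1, h2, h3, h4⟩ := (Dd_iff X R n).1 hD w
      refine ⟨x, h1, h2, fun i hi => ?_⟩
      rcases Nat.lt_succ_iff_lt_or_eq.1 hi with h5 | h5
      · exact h3 i h5
      · subst h5
        exact ⟨fun _ => hD, fun _ => h4⟩
    · have h0 := hD
      rw [Dd_iff] at h0
      push Not at h0
      obtain ⟨w0, hw0⟩ := h0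
      intro w
      obtain ⟨x, h1, h2, h3⟩ := ih (max w w0)
      refine ⟨x, lt_of_le_of_lt (le_max_left _ _) h1, h2, fun i hi => ?_⟩
      rcases Nat.lt_succ_iff_lt_or_eq.1 hi with h5 | h5
      · exact h3 i h5
      · subst h5
        have h6 := hw0 x (lt_of_le_of_lt (le_max_right _ _) h1) h2 h3
        exact ⟨fun h7 => absurd h7 h6, fun h7 => absurd h7 hD⟩

theorem Dd_code (n : ℕ) : Dd X R n ↔ ∃ s, (∀ k < n + 1, (eps k s ↔
    ∀ w, ∃ x, w < x ∧ X x ∧ (∀ i < k, (R i x ↔ eps i s)) ∧ R k x)) ∧ eps n s := by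
  have key : ∀ s, (∀ k < n + 1, (eps k s ↔
    ∀ w, ∃ x, w < x ∧ X x ∧ (∀ i < k, (R i x ↔ eps i s)) ∧ R k x)) →
      ∀ k < n + 1, (eps k s ↔ Dd X R k) := by
    intro s hs k
    induction k using Nat.strong_induction_on with
    | _ k ih =>
      intro hk
      rw [hs k hk, Dd_iff]
      refine forall_congr' fun w => exists_congr fun x => and_congr Iff.rfl (and_congr Iff.rfl
        (and_congr (forall_congr' fun i => forall_congr' fun hi => ?_) Iff.rfl))
      rw [ih i hi (hi.trans hk)]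
  constructor
  · intro h
    obtain ⟨s, hs⟩ := exists_nat_code (n + 1) (Dd X R)
    refine ⟨s, fun k hk => ?_, (hs n (Nat.lt_succ_self n)).2 h⟩
    rw [hs k hk, Dd_iff]
    refine forall_congr' fun w => exists_congr fun x => and_congr Iff.rfl (and_congr Iff.rfl
        (and_congr (forall_congr' fun i => forall_congr' fun hi => ?_) Iff.rfl))
    rw [hs i (hi.trans hk)]
  · rintro ⟨s, hs, h⟩
    exact (key s hs n (Nat.lt_succ_self n)).1 h

/-- agreement with the leftmost branch up to `n` -/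
def Ag (n x : ℕ) : Prop := n ≤ x ∧ ∀ i < n, (R i x ↔ Dd X R i)

/-- the refined set -/
def Xr (x : ℕ) : Prop := X x ∧ ∀ y, X y → y < x → ∃ n, Ag X R n x ∧ ¬ Ag X R n y

theorem Xr_inf (hX : ∀ w, ∃ x, w < x ∧ X x) : ∀ w, ∃ x, w < x ∧ Xr X R x := by
  classical
  intro w
  have h1 : ∃ x, X x ∧ Ag X R (w + 1) x := by
    obtain ⟨x, h1, h2, h3⟩ := Dd_inf X R hX (w + 1) w
    exact ⟨x, h2, h1, h3⟩
  refine ⟨Nat.find h1, ?_, ?_⟩
  · exact (Nat.find_spec h1).2.1
  · refine ⟨(Nat.find_spec h1).1, fun y hy hyx => ⟨w + 1, (Nat.find_spec h1).2, fun h2 => ?_⟩⟩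
    exact Nat.find_min h1 hyx ⟨hy, h2⟩

theorem Xr_dec (hX : ∀ w, ∃ x, w < x ∧ X x) (z : ℕ) :
    (∃ w, ∀ x, Xr X R x → w < x → R z x) ∨ (∃ w, ∀ x, Xr X R x → w < x → ¬ R z x) := by
  obtain ⟨x0, h1, h2, h3⟩ := Dd_inf X R hX (z + 1) z
  have key : ∀ x, Xr X R x → x0 < x → (R z x ↔ Dd X R z) := by
    intro x hx hx0
    obtain ⟨n, hn1, hn2⟩ := hx.2 x0 h2 hx0
    have hn3 : z < n := by
      by_contra hcon
      push Not at hcon
      refine hn2 ⟨hcon.trans h1.le, fun i hi => h3 i (by omega)⟩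
    exact hn1.2 z hn3
  by_cases hD : Dd X R z
  · exact Or.inl ⟨x0, fun x hx hx0 => (key x hx hx0).2 hD⟩
  · exact Or.inr ⟨x0, fun x hx hx0 h => hD ((key x hx hx0).1 h)⟩

end refine

theorem ar_lt (i j : ℕ) : Ar fun v => v i < v j := Dfn.lt i j

theorem ar_le (i j : ℕ) : Ar fun v => v i ≤ v j := (ar_lt j i).not.congr fun _ => not_lt

theorem ar_Dd {X : ℕ → Prop} {R : ℕ → ℕ → Prop} (hX : Ar fun v => X (v 0))
    (hR : Ar fun v => R (v 0) (v 1)) (j : ℕ) : Ar fun v => Dd X R (v j) := by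
  have hX' : ∀ a, Ar fun v => X (v a) := fun a => (hX.ren fun _ => a).congr fun v => Iff.rfl
  have hR' : ∀ a b, Ar fun v => R (v a) (v b) := fun a b =>
    (hR.ren fun n => match n with | 0 => a | _ + 1 => b).congr fun v => Iff.rfl
  have h0 : Ar fun v => Dd X R (v 0) := by
    have e1 : Ar fun v => ∃ s, (∀ k, (k < v 0 + 1) → (eps k s ↔
        ∀ w, ∃ x, w < x ∧ X x ∧ (∀ i < k, (R i x ↔ eps i s)) ∧ R k x)) ∧ eps (v 0) s := by
      -- 0 = x, 1 = w, 2 = k, 3 = s, 4 = v 0
      have f2 : Ar fun v => v 1 < v 0 ∧ X (v 0) ∧ (∀ i, i < v 2 → (R i (v 0) ↔ eps i (v 3))) ∧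
          R (v 2) (v 0) := by
        have g1 : Ar fun v => v 0 < v 3 → (R (v 0) (v 1) ↔ eps (v 0) (v 4)) :=
          (ar_lt 0 3).imp ((hR' 0 1).iff (dfn_eps 0 4))
        exact (ar_lt 1 0).and ((hX' 0).and (g1.all.and (hR' 2 0)))
      have f3 : Ar fun v => ∀ w, ∃ x, w < x ∧ X x ∧ (∀ i, i < v 0 → (R i x ↔ eps i (v 1))) ∧
          R (v 0) x := f2.ex.all
      -- 0 = k, 1 = s, 2 = v 0
      have f4 : Ar fun v => v 0 < v 2 + 1 := (ar_le 0 2).congr fun v => Nat.lt_succ_iff.symm
      have f5 : Ar fun v => v 0 < v 2 + 1 → (eps (v 0) (v 1) ↔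
          ∀ w, ∃ x, w < x ∧ X x ∧ (∀ i, i < v 0 → (R i x ↔ eps i (v 1))) ∧ R (v 0) x) :=
        f4.imp ((dfn_eps 0 1).iff f3)
      exact (f5.all.and (dfn_eps 1 0)).ex
    exact e1.congr fun v => (Dd_code X R (v 0)).symm
  exact (h0.ren fun _ => j).congr fun v => Iff.rfl

theorem ar_Xr {X : ℕ → Prop} {R : ℕ → ℕ → Prop} (hX : Ar fun v => X (v 0))
    (hR : Ar fun v => R (v 0) (v 1)) : Ar fun v => Xr X R (v 0) := by
  have hX' : ∀ a, Ar fun v => X (v a) := fun a => (hX.ren fun _ => a).congr fun v => Iff.rfl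
  have hR' : ∀ a b, Ar fun v => R (v a) (v b) := fun a b =>
    (hR.ren fun n => match n with | 0 => a | _ + 1 => b).congr fun v => Iff.rfl
  have hAg : ∀ a b, Ar fun v => Ag X R (v a) (v b) := by
    intro a b
    have g1 : Ar fun v => v 0 < v (a + 1) → (R (v 0) (v (b + 1)) ↔ Dd X R (v 0)) :=
      (ar_lt 0 (a + 1)).imp ((hR' 0 (b + 1)).iff (ar_Dd hX hR 0))
    exact (ar_le a b).and g1.all
  -- 0 = n, 1 = y, 2 = x
  have g2 : Ar fun v => Ag X R (v 0) (v 2) ∧ ¬ Ag X R (v 0) (v 1) := (hAg 0 2).and (hAg 0 1).not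
  have g3 : Ar fun v => X (v 0) → v 0 < v 1 → ∃ n, Ag X R n (v 1) ∧ ¬ Ag X R n (v 0) :=
    (hX' 0).imp ((ar_lt 0 1).imp g2.ex)
  exact (hX' 0).and g3.all

/-- the infinite arithmetical sets -/
structure IA where
  X : ℕ → Prop
  inf : ∀ w, ∃ x, w < x ∧ X x
  ar : Ar fun v => X (v 0)

/-- the relation given by a formula -/
def relOf (φ : Fm) (z x : ℕ) : Prop := φ.Realize (scons x fun _ => z)

theorem ar_relOf (φ : Fm) : Ar fun v => relOf φ (v 0) (v 1) := by
  refine ((Dfn.fm φ).ren fun n => match n with | 0 => 1 | _ + 1 => 0).congr fun v => ?_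
  unfold relOf
  have : v ∘ (fun n => match n with | 0 => 1 | _ + 1 => 0) = scons (v 1) fun _ => v 0 := by
    funext n
    cases n <;> rfl
  rw [this]

/-- one step of the refinement -/
def IA.step (A : IA) (φ : Fm) : IA where
  X := Xr A.X (relOf φ)
  inf := Xr_inf _ _ A.inf
  ar := ar_Xr A.ar (ar_relOf φ)

instance : Countable (LA.Symbols) := by
  have h1 : Countable (Σ n, AF n) := by
    let f : (Σ n, AF n) → ℕ := fun z => match z with
      | ⟨_, AF.zero⟩ => 0
      | ⟨_, AF.one⟩ => 1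
      | ⟨_, AF.add⟩ => 2
      | ⟨_, AF.mul⟩ => 3
    refine Function.Injective.countable (f := f) ?_
    rintro ⟨n, a⟩ ⟨m, b⟩ h
    cases a <;> cases b <;> simp_all [f]
  have h2 : Countable (Σ n, AR n) := by
    let f : (Σ n, AR n) → ℕ := fun z => match z with
      | ⟨_, AR.lt⟩ => 0
    refine Function.Injective.countable (f := f) ?_
    rintro ⟨n, a⟩ ⟨m, b⟩ h
    cases a; cases b; rfl
  have h3 : Countable ((Σ n, LA.Functions n) ⊕ (Σ n, LA.Relations n)) := by
    have : Countable (Σ n, LA.Functions n) := h1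
    have : Countable (Σ n, LA.Relations n) := h2
    infer_instance
  exact h3

/-- an enumeration of the formulas -/
theorem exists_enum : ∃ f : ℕ → Fm, Function.Surjective f :=
  haveI : Nonempty Fm := ⟨⊥⟩
  exists_surjective_nat Fm

/-- the sequence of sets -/
def seqX (f : ℕ → Fm) : ℕ → IA
  | 0 => ⟨fun _ => True, fun w => ⟨w + 1, Nat.lt_succ_self w, trivial⟩, Dfn.bool True⟩
  | n + 1 => (seqX f n).step (f n)

theorem seqX_anti (f : ℕ → Fm) {n m : ℕ} (h : n ≤ m) (x : ℕ) (hx : (seqX f m).X x) :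
    (seqX f n).X x := by
  induction h with
  | refl => exact hx
  | step _ ih => exact ih hx.1

/-- the filter of the definable type -/
def pfil (f : ℕ → Fm) : Filter ℕ where
  sets := {A | ∃ n w, ∀ x, (seqX f n).X x → w < x → x ∈ A}
  univ_sets := ⟨0, 0, fun x _ _ => trivial⟩
  sets_of_superset := by
    rintro A B ⟨n, w, h⟩ hAB
    exact ⟨n, w, fun x h1 h2 => hAB (h x h1 h2)⟩
  inter_sets := by
    rintro A B ⟨n, w, h⟩ ⟨n', w', h'⟩
    refine ⟨max n n', max w w', fun x h1 h2 => ⟨h x ?_ ?_, h' x ?_ ?_⟩⟩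
    · exact seqX_anti f (le_max_left _ _) x h1
    · exact lt_of_le_of_lt (le_max_left _ _) h2
    · exact seqX_anti f (le_max_right _ _) x h1
    · exact lt_of_le_of_lt (le_max_right _ _) h2

theorem pfil_ev (f : ℕ → Fm) (A : ℕ → Prop) :
    (∀ᶠ x in pfil f, A x) ↔ ∃ n w, ∀ x, (seqX f n).X x → w < x → A x := Iff.rfl

theorem pfil_neBot (f : ℕ → Fm) : (pfil f).NeBot := by
  rw [← Filter.empty_mem_iff_bot.not.trans (Filter.neBot_iff.symm)]
  rintro ⟨n, w, h⟩
  obtain ⟨x, h1, h2⟩ := (seqX f n).inf w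
  exact h x h2 h1

/-- the properties of the type, for a relation `R` -/
def Good (p : Filter ℕ) (R : (ℕ → ℕ) → Prop) : Prop :=
  (∀ v, (∀ᶠ x in p, R (scons x v)) ∨ (∀ᶠ x in p, ¬ R (scons x v))) ∧
    Ar fun v => ∀ᶠ x in p, R (scons x v)

theorem good_one {f : ℕ → Fm} (hf : Function.Surjective f) (φ : Fm) :
    Good (pfil f) fun v => relOf φ (v 1) (v 0) := by
  obtain ⟨n, rfl⟩ := hf φ
  have hdec : ∀ z, (∃ w, ∀ x, (seqX f (n + 1)).X x → w < x → relOf (f n) z x) ∨
      (∃ w, ∀ x, (seqX f (n + 1)).X x → w < x → ¬ relOf (f n) z x) := fun z =>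
    Xr_dec _ _ (seqX f n).inf z
  have hne := pfil_neBot f
  have hiff : ∀ z, (∀ᶠ x in pfil f, relOf (f n) z x) ↔
      ∃ w, ∀ x, (seqX f (n + 1)).X x → w < x → relOf (f n) z x := by
    intro z
    constructor
    · intro h
      rcases hdec z with h1 | ⟨w, h1⟩
      · exact h1
      · have h2 : ∀ᶠ x in pfil f, ¬ relOf (f n) z x := ⟨n + 1, w, h1⟩
        obtain ⟨x, hx1, hx2⟩ := (h.and h2).exists
        exact absurd hx1 hx2
    · rintro ⟨w, h⟩
      exact ⟨n + 1, w, h⟩
  refine ⟨fun v => ?_, ?_⟩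
  · rcases hdec (v 0) with ⟨w, h1⟩ | ⟨w, h1⟩
    · exact Or.inl ⟨n + 1, w, h1⟩
    · exact Or.inr ⟨n + 1, w, h1⟩
  · have h1 : Ar fun v => (seqX f (n + 1)).X (v 0) → v 1 < v 0 → relOf (f n) (v 2) (v 0) :=
      (((seqX f (n + 1)).ar.ren fun _ => 0).congr fun v => Iff.rfl).imp ((ar_lt 1 0).imp
        (((ar_relOf (f n)).ren fun k => match k with | 0 => 2 | _ + 1 => 0).congr fun v => Iff.rfl))
    exact h1.all.ex.congr fun v => (hiff (v 0)).symm

theorem good_dep {f : ℕ → Fm} (hf : Function.Surjective f) (K : ℕ) :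
    ∀ R : (ℕ → ℕ) → Prop, Ar R →
      (∀ x (v v' : ℕ → ℕ), (∀ i < K + 1, v i = v' i) → (R (scons x v) ↔ R (scons x v'))) →
      Good (pfil f) R := by
  induction K with
  | zero =>
    intro R hR hdep
    obtain ⟨φ, hφ⟩ := dfn_iff.1 hR
    -- `R` is given by a formula
    let φ' : Fm := φ.relabel (fun z => match z with | Sum.inl a => absurd a.2 (Set.notMem_empty _)
                                                    | Sum.inr n => n)
    have h1 : ∀ x z, relOf φ' z x ↔ R (scons x fun _ => z) := by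
      intro x z
      unfold relOf
      rw [Formula.realize_relabel, ← hφ]
      have : (scons x fun _ => z) ∘ (fun y : (↥(∅ : Set ℕ)) ⊕ ℕ => match y with
          | Sum.inl a => absurd a.2 (Set.notMem_empty _)
          | Sum.inr n => n) = Sum.elim Subtype.val (scons x fun _ => z) := by
        funext y
        rcases y with y | y
        · exact absurd y.2 (Set.notMem_empty _)
        · rfl
      rw [this]
    have h2 : ∀ x v, R (scons x v) ↔ relOf φ' (v 0) x := by
      intro x v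
      rw [h1]
      refine hdep x _ _ fun i hi => ?_
      have : i = 0 := by omega
      subst this
      rfl
    obtain ⟨h3, h4⟩ := good_one hf φ'
    refine ⟨fun v => ?_, ?_⟩
    · simp only [h2]
      exact h3 v
    · refine h4.congr fun v => ?_
      simp only [h2]
      rfl
  | succ K ih =>
    intro R hR hdep
    let R' : (ℕ → ℕ) → Prop := fun w => ∃ a b, w 1 = pr a b ∧
      R (scons (w 0) (scons a (scons b fun n => w (n + 2))))
    have hR' : Ar R' := by
      -- 0 = b, 1 = a, 2 = w 0, 3 = w 1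
      have h1 : Ar fun v => v 3 = pr (v 1) (v 0) ∧
          R (v ∘ fun n => match n with | 0 => 2 | 1 => 1 | 2 => 0 | n + 3 => n + 4) :=
        (dfn_pr 3 1 0).and (hR.ren _)
      refine h1.ex.ex.congr fun v => exists_congr fun a => exists_congr fun b => and_congr Iff.rfl ?_
      have : (scons b (scons a v)) ∘ (fun n => match n with
          | 0 => 2 | 1 => 1 | 2 => 0 | n + 3 => n + 4) =
          scons (v 0) (scons a (scons b fun n => v (n + 2))) := by
        funext n
        match n with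
        | 0 => rfl
        | 1 => rfl
        | 2 => rfl
        | n + 3 => rfl
      rw [this]
    have hRR : ∀ x a b v, R' (scons x (scons (pr a b) v)) ↔ R (scons x (scons a (scons b v))) := by
      intro x a b v
      constructor
      · rintro ⟨a', b', h1, h2⟩
        obtain ⟨rfl, rfl⟩ := nat_pr_inj h1
        exact h2
      · intro h
        exact ⟨a, b, rfl, h⟩
    have hG := ih R' hR' (by
      intro x v v' hvv
      refine exists_congr fun a => exists_congr fun b => ?_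
      have e0 : (scons x v) 1 = (scons x v') 1 := hvv 0 (by omega)
      rw [e0]
      refine and_congr Iff.rfl (hdep _ _ _ fun i hi => ?_)
      match i with
      | 0 => rfl
      | 1 => rfl
      | i + 2 => exact hvv (i + 1) (by omega))
    have hv : ∀ v : ℕ → ℕ, v = scons (v 0) (scons (v 1) fun n => v (n + 2)) := by
      intro v
      funext n
      match n with
      | 0 => rfl
      | 1 => rfl
      | n + 2 => rfl
    have key : ∀ x v, R (scons x v) ↔
        R' (scons x (scons (pr (v 0) (v 1)) fun n => v (n + 2))) := by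
      intro x v
      rw [hRR, ← hv v]
    refine ⟨fun v => ?_, ?_⟩
    · simp only [key]
      exact hG.1 _
    · simp only [key]
      have h1 : Ar fun v => v 0 = pr (v 1) (v 2) ∧ ∀ᶠ x in pfil f, R' (scons x
          (v ∘ fun n => match n with | 0 => 0 | n + 1 => n + 3)) :=
        (dfn_pr 0 1 2).and (hG.2.ren _)
      refine h1.ex.congr fun v => ?_
      have e1 : ∀ t, (scons t v) ∘ (fun n => match n with | 0 => 0 | n + 1 => n + 3) =
          scons t fun n => v (n + 2) := by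
        intro t
        funext n
        cases n <;> rfl
      simp only [e1]
      constructor
      · rintro ⟨t, h2, h3⟩
        have h4 : t = pr (v 0) (v 1) := h2
        rw [← h4]
        exact h3
      · intro h2
        exact ⟨_, rfl, h2⟩

/-- an arithmetical relation depends on finitely many variables -/
theorem ar_dep {R : (ℕ → ℕ) → Prop} (hR : Ar R) :
    ∃ K, ∀ v v' : ℕ → ℕ, (∀ i < K, v i = v' i) → (R v ↔ R v') := by
  classical
  obtain ⟨φ, hφ⟩ := dfn_iff.1 hR
  refine ⟨(φ.freeVarFinset.toRight).sup id + 1, fun v v' hv => ?_⟩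
  rw [← hφ, ← hφ]
  have h1 : ∀ v : ℕ → ℕ, φ.Realize (Sum.elim Subtype.val v) ↔
      Formula.Realize (φ.restrictFreeVar id)
        (fun a : φ.freeVarFinset => Sum.elim Subtype.val v (a : (↥(∅ : Set ℕ)) ⊕ ℕ)) := by
    intro v
    unfold Formula.Realize
    exact (BoundedFormula.realize_restrictFreeVar (φ := φ) (f := id)
      (v := fun a : φ.freeVarFinset => Sum.elim Subtype.val v (a : (↥(∅ : Set ℕ)) ⊕ ℕ))
      (v' := Sum.elim Subtype.val v) (xs := @default (Fin 0 → ℕ) Unique.instInhabited)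
      (fun a => rfl)).symm
  rw [h1, h1]
  have : (fun a : φ.freeVarFinset => Sum.elim Subtype.val v (a : (↥(∅ : Set ℕ)) ⊕ ℕ)) =
      (fun a : φ.freeVarFinset => Sum.elim Subtype.val v' (a : (↥(∅ : Set ℕ)) ⊕ ℕ)) := by
    funext a
    rcases a with ⟨a | a, ha⟩
    · rfl
    · refine hv a ?_
      have h2 : a ∈ φ.freeVarFinset.toRight := by simpa using ha
      have h3 : a ≤ φ.freeVarFinset.toRight.sup id := Finset.le_sup (f := id) h2
      omega
  rw [this]

/-- The existence of a definable type. -/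
theorem exists_type : ∃ p : Filter ℕ, p.NeBot ∧ (∀ w, ∀ᶠ x in p, w < x) ∧
    (∀ R : (ℕ → ℕ) → Prop, Ar R → Good p R) := by
  obtain ⟨f, hf⟩ := exists_enum
  refine ⟨pfil f, pfil_neBot f, fun w => ⟨0, w, fun x _ h => h⟩, fun R hR => ?_⟩
  obtain ⟨K, hK⟩ := ar_dep hR
  refine good_dep hf K R hR fun x v v' hv => hK _ _ fun i hi => ?_
  match i with
  | 0 => rfl
  | i + 1 => exact hv i (by omega)

end Pool.Agent.TH752.RL
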